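import Pool.Agent.P.MP_a6130f_an.Lock

set_option autoImplicit false

/-! All solutions in terms of one solution. -/

namespace Pool.Agent.P.MP_a6130f_an

open Real Set Filter Topology

/-- `c` times the integral of `cos psi`. -/
noncomputable def Pf (c : ℝ) (ψ : ℝ → ℝ) (t : ℝ) : ℝ := c * ∫ s in (0 : ℝ)..t, cos (ψ s)

/-- `c` times the integral of `exp (-P) sin psi`. -/
noncomputable def If (c : ℝ) (ψ : ℝ → ℝ) (t : ℝ) : ℝ :=
  c * ∫ s in (0 : ℝ)..t, exp (-Pf c ψ s) * sin (ψ s)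

lemma hasDerivAt_Pf (c : ℝ) {ψ : ℝ → ℝ} (h : Continuous ψ) (t : ℝ) :
    HasDerivAt (Pf c ψ) (c * cos (ψ t)) t :=
  ((Continuous.integral_hasStrictDerivAt (f := fun s => cos (ψ s)) (by fun_prop) 0
    t).hasDerivAt).const_mul c

lemma continuous_Pf (c : ℝ) {ψ : ℝ → ℝ} (h : Continuous ψ) : Continuous (Pf c ψ) :=
  continuous_iff_continuousAt.2 fun t => (hasDerivAt_Pf c h t).continuousAt

lemma hasDerivAt_If (c : ℝ) {ψ : ℝ → ℝ} (h : Continuous ψ) (t : ℝ) :
    HasDerivAt (If c ψ) (c * (exp (-Pf c ψ t) * sin (ψ t))) t := by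
  have := continuous_Pf c h
  exact ((Continuous.integral_hasStrictDerivAt (f := fun s => exp (-Pf c ψ s) * sin (ψ s))
    (by fun_prop) 0 t).hasDerivAt).const_mul c

@[simp] lemma Pf_zero (c : ℝ) (ψ : ℝ → ℝ) : Pf c ψ 0 = 0 := by simp [Pf]
@[simp] lemma If_zero (c : ℝ) (ψ : ℝ → ℝ) : If c ψ 0 = 0 := by simp [If]

/-- The one-parameter family of other solutions. -/
noncomputable def oth (c : ℝ) (ψ : ℝ → ℝ) (w : ℝ) (t : ℝ) : ℝ :=
  ψ t + π - 2 * arctan (exp (Pf c ψ t) * (w - If c ψ t))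

lemma Sol.oth {c B A : ℝ} {ψ : ℝ → ℝ} (h : Sol c B A ψ) (w : ℝ) : Sol c B A (oth c ψ w) := by
  intro t
  have h1 := hasDerivAt_Pf c h.continuous t
  have h2 := hasDerivAt_If c h.continuous t
  have h3 : HasDerivAt (fun t => exp (Pf c ψ t) * (w - If c ψ t))
      (c * (cos (ψ t) * (exp (Pf c ψ t) * (w - If c ψ t)) - sin (ψ t))) t := by
    refine (h1.exp.mul (h2.const_sub w)).congr_deriv ?_
    have e : exp (Pf c ψ t) * exp (-Pf c ψ t) = 1 := by rw [← exp_add]; simp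
    linear_combination (-c * sin (ψ t)) * e
  have h4 := ((h t).add_const π).sub (h3.arctan.const_mul 2)
  refine h4.congr_deriv ?_
  set W := exp (Pf c ψ t) * (w - If c ψ t) with hW
  have hs : sin (Pool.Agent.P.MP_a6130f_an.oth c ψ w t)
      = -(sin (ψ t) * (1 - W ^ 2) - cos (ψ t) * (2 * W)) / (1 + W ^ 2) := by
    have e : Pool.Agent.P.MP_a6130f_an.oth c ψ w t = (ψ t - 2 * arctan W) + π := by
      unfold Pool.Agent.P.MP_a6130f_an.oth; ring
    rw [e, sin_add_pi, sin_sub, cos_two_mul, sin_two_mul, cos_sq_arctan, sin_arctan, cos_arctan]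
    have hp : 0 < 1 + W ^ 2 := by positivity
    have hq : √(1 + W ^ 2) * √(1 + W ^ 2) = 1 + W ^ 2 := mul_self_sqrt hp.le
    have hq' : √(1 + W ^ 2) ≠ 0 := (sqrt_pos.2 hp).ne'
    have e2 : 2 * (W / √(1 + W ^ 2)) * (1 / √(1 + W ^ 2)) = 2 * W / (1 + W ^ 2) := by
      field_simp; rw [sq_sqrt hp.le]
    rw [e2]
    field_simp
    ring
  rw [hs]
  have hp : 0 < 1 + W ^ 2 := by positivity
  field_simp
  ring

lemma Dsp_oth (c : ℝ) (r : ℤ) (ψ : ℝ → ℝ) (w : ℝ) :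
    Dsp r (oth c ψ w) = Dsp r ψ +
      2 * (arctan w - arctan (exp (Pf c ψ (2 * π)) * (w - If c ψ (2 * π)))) := by
  unfold Dsp oth
  simp
  ring

lemma Dsp_cover {c B A : ℝ} (r : ℤ) {ψ₀ ψ : ℝ → ℝ} (h₀ : Sol c B A ψ₀) (h : Sol c B A ψ) :
    Dsp r ψ = Dsp r ψ₀ ∨ ∃ w, Dsp r ψ = Dsp r (oth c ψ₀ w) := by
  have hπ : (0 : ℝ) < 2 * π := by positivity
  set k := ⌊(ψ 0 - ψ₀ 0) / (2 * π)⌋ with hk
  have h1 : (k : ℝ) ≤ (ψ 0 - ψ₀ 0) / (2 * π) := Int.floor_le _
  have h2 : (ψ 0 - ψ₀ 0) / (2 * π) < k + 1 := Int.lt_floor_add_one _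
  rw [le_div_iff₀ hπ] at h1
  rw [div_lt_iff₀ hπ] at h2
  have gen : ∀ χ, Sol c B A χ → ψ 0 = χ 0 + k * (2 * π) → Dsp r ψ = Dsp r χ := by
    intro χ hχ e
    have := h.unique (hχ.add_int k) (t₀ := 0) e
    have h3 := congrFun this (2 * π)
    unfold Dsp
    linarith
  rcases h1.eq_or_lt with h1 | h1
  · exact Or.inl (gen _ h₀ (by linarith))
  · refine Or.inr ⟨tan ((π - (ψ 0 - ψ₀ 0 - k * (2 * π))) / 2), gen _ (h₀.oth _) ?_⟩
    unfold oth
    simp only [Pf_zero, If_zero, exp_zero, sub_zero, one_mul]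
    rw [arctan_tan (by linarith) (by linarith)]
    ring

lemma Parab.exists_sol {c B A : ℝ} {r : ℤ} (h : Parab c r B A) :
    ∃ ψ, Sol c B A ψ ∧ Dsp r ψ = 0 ∧ Pf c ψ (2 * π) = 0 ∧ If c ψ (2 * π) ≠ 0 := by
  obtain ⟨⟨ψ₀, h₀, d₀⟩, ⟨ψ₁, h₁, d₁⟩, h3⟩ := h
  have hP : Pf c ψ₀ (2 * π) = 0 := by
    set E := exp (Pf c ψ₀ (2 * π)) with hE
    set I := If c ψ₀ (2 * π) with hI
    have hE1 : E = 1 := by
      by_contra hne
      have hne' : E - 1 ≠ 0 := sub_ne_zero.2 hne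
      rcases h3 with h3 | h3
      · have := h3 _ (h₀.oth ((E * I + 1) / (E - 1)))
        rw [Dsp_oth, d₀, ← hE, ← hI] at this
        have h4 : arctan (E * ((E * I + 1) / (E - 1) - I)) ≤ arctan ((E * I + 1) / (E - 1)) := by
          linarith
        rw [arctan_le_arctan_iff] at h4
        have e : E * ((E * I + 1) / (E - 1) - I) = (E * I + 1) / (E - 1) + 1 := by
          field_simp; ring
        linarith
      · have := h3 _ (h₀.oth ((E * I - 1) / (E - 1)))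
        rw [Dsp_oth, d₀, ← hE, ← hI] at this
        have h4 : arctan ((E * I - 1) / (E - 1)) ≤ arctan (E * ((E * I - 1) / (E - 1) - I)) := by
          linarith
        rw [arctan_le_arctan_iff] at h4
        have e : E * ((E * I - 1) / (E - 1) - I) = (E * I - 1) / (E - 1) - 1 := by
          field_simp; ring
        linarith
    rw [hE] at hE1
    exact (exp_eq_one_iff _).1 hE1
  refine ⟨ψ₀, h₀, d₀, hP, fun hI => d₁ ?_⟩
  rcases Dsp_cover r h₀ h₁ with e | ⟨w, e⟩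
  · rw [e, d₀]
  · rw [e, Dsp_oth, d₀, hP, hI]; simp

lemma parab_of_sol {c B A : ℝ} {r : ℤ} {ψ : ℝ → ℝ} (h : Sol c B A ψ) (d : Dsp r ψ = 0)
    (hP : Pf c ψ (2 * π) = 0) (hI : If c ψ (2 * π) ≠ 0) : Parab c r B A := by
  have e : ∀ w, Dsp r (oth c ψ w) = 2 * (arctan w - arctan (w - If c ψ (2 * π))) := by
    intro w; rw [Dsp_oth, d, hP]; simp
  refine ⟨⟨ψ, h, d⟩, ⟨oth c ψ 0, h.oth 0, ?_⟩, ?_⟩
  · rw [e]
    intro h0
    have : arctan 0 = arctan (0 - If c ψ (2 * π)) := by linarith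
    have := arctan_injective this
    exact hI (by linarith)
  · rcases le_total 0 (If c ψ (2 * π)) with hs | hs
    · refine Or.inl fun χ hχ => ?_
      rcases Dsp_cover r h hχ with e' | ⟨w, e'⟩
      · rw [e', d]
      · rw [e', e]
        have : arctan (w - If c ψ (2 * π)) ≤ arctan w := arctan_le_arctan_iff.2 (by linarith)
        linarith
    · refine Or.inr fun χ hχ => ?_
      rcases Dsp_cover r h hχ with e' | ⟨w, e'⟩
      · rw [e', d]
      · rw [e', e]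
        have : arctan w ≤ arctan (w - If c ψ (2 * π)) := arctan_le_arctan_iff.2 (by linarith)
        linarith

/-- Periodicity for all times. -/
lemma Sol.periodic {c B A : ℝ} {r : ℤ} {ψ : ℝ → ℝ} (h : Sol c B A ψ) (d : Dsp r ψ = 0) (t : ℝ) :
    ψ (t + 2 * π) = ψ t + r * (2 * π) := by
  have := (h.shift 0).unique (h.add_int r) (t₀ := 0) (by unfold Dsp at d; simp; linarith)
  simpa using congrFun this t

/-- A symmetric periodic solution has multiplier one. -/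
lemma Pf_eq_zero_of_symm {c B A : ℝ} {r : ℤ} {ψ : ℝ → ℝ} (h : Sol c B A ψ) (d : Dsp r ψ = 0)
    (h0 : cos (ψ 0) = 0) : Pf c ψ (2 * π) = 0 := by
  have hc2 : cos (2 * ψ 0) = -1 := by rw [cos_two_mul, h0]; ring
  have hs2 : sin (2 * ψ 0) = 0 := by rw [sin_two_mul, h0]; ring
  have hχ : Sol c B A (fun t => 2 * ψ 0 - ψ (-t)) := by
    intro t
    have h1 := ((h (-t)).comp t (hasDerivAt_neg t)).const_sub (2 * ψ 0)
    refine h1.congr_deriv ?_
    simp only [sin_sub, hc2, hs2, cos_neg]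
    ring
  have hsym := hχ.unique h (t₀ := 0) (by simp; ring)
  have hodd : ∀ t, cos (ψ (2 * π - t)) = -cos (ψ t) := by
    intro t
    have e1 : ψ (2 * π - t) = ψ (-t) + r * (2 * π) := by
      rw [← h.periodic d (-t)]; congr 1; ring
    have e2 : ψ (-t) = 2 * ψ 0 - ψ t := by
      have := congrFun hsym t
      linarith
    rw [e1, cos_add_int_mul_two_pi, e2, cos_sub, hc2, hs2]; ring
  have h1 := intervalIntegral.integral_comp_sub_left (fun s => cos (ψ s)) (a := 0) (b := 2 * π)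
    (2 * π)
  simp only [hodd, sub_self, sub_zero, intervalIntegral.integral_neg] at h1
  unfold Pf
  have : ∫ s in (0 : ℝ)..2 * π, cos (ψ s) = 0 := by linarith
  rw [this, mul_zero]

end Pool.Agent.P.MP_a6130f_an
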