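import Pool.Agent.P.MP_a6130f_an.Fourier
import Pool.Agent.P.MP_a6130f_an.Moebius

set_option autoImplicit false

/-! A parabolic periodic solution on the axis yields a polynomial solution. -/

namespace Pool.Agent.P.MP_a6130f_an

open Set Filter Topology Complex
open scoped Real ComplexConjugate

lemma summable_of_rec {x μ M : ℝ} {l : ℤ} {b : ℤ → ℂ} (hM : ∀ k, ‖b k‖ ≤ M)
    (hr : ∀ k : ℤ, k * b k = μ * b (k - 1) + x * conj (b (-l - k))) :
    Summable fun k => ‖b k‖ := by
  have h1 : ∀ k : ℤ, |(k : ℝ)| * ‖b k‖ ≤ |μ| * ‖b (k - 1)‖ + |x| * ‖b (-l - k)‖ := by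
    intro k
    have := norm_add_le ((μ : ℂ) * b (k - 1)) (x * conj (b (-l - k)))
    rw [← hr k] at this
    simpa using this
  have hμ := abs_nonneg μ
  have hx := abs_nonneg x
  have h2 : ∀ k : ℤ, (1 + |(k : ℝ)|) * ‖b k‖ ≤ M + (|μ| + |x|) * M := by
    intro k
    have := h1 k
    have := hM k
    have := mul_le_mul_of_nonneg_left (hM (k - 1)) hμ
    have := mul_le_mul_of_nonneg_left (hM (-l - k)) hx
    linarith
  set M2 := M + (|μ| + |x|) * M
  have h3 : ∀ k : ℤ, (k : ℝ) ^ 2 * ‖b k‖ ≤ |μ| * M2 + |x| * ((1 + |(l : ℝ)|) * M2) := by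
    intro k
    have a1 : |(k : ℝ)| ≤ 1 + |((k - 1 : ℤ) : ℝ)| := by
      have := abs_add_le (1 : ℝ) (k - 1)
      push_cast
      simpa using this
    have a2 : |(k : ℝ)| ≤ (1 + |(l : ℝ)|) * (1 + |((-l - k : ℤ) : ℝ)|) := by
      have := abs_add_le (l : ℝ) (-l - k)
      have e : (l : ℝ) + (-l - k) = -k := by ring
      rw [e, abs_neg] at this
      push_cast
      nlinarith [abs_nonneg (l : ℝ), abs_nonneg (-(l : ℝ) - k)]
    have b1 : |(k : ℝ)| * ‖b (k - 1)‖ ≤ M2 :=
      (mul_le_mul_of_nonneg_right a1 (norm_nonneg _)).trans (h2 _)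
    have b2 : |(k : ℝ)| * ‖b (-l - k)‖ ≤ (1 + |(l : ℝ)|) * M2 := by
      refine (mul_le_mul_of_nonneg_right a2 (norm_nonneg _)).trans ?_
      rw [mul_assoc]
      exact mul_le_mul_of_nonneg_left (h2 _) (by positivity)
    have c1 := mul_le_mul_of_nonneg_left (h1 k) (abs_nonneg (k : ℝ))
    have c2 := mul_le_mul_of_nonneg_left b1 hμ
    have c3 := mul_le_mul_of_nonneg_left b2 hx
    rw [← sq_abs]
    nlinarith
  set M3 := |μ| * M2 + |x| * ((1 + |(l : ℝ)|) * M2)
  have hs : Summable fun k : ℤ => M3 * (1 / (k : ℝ) ^ 2) :=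
    (Real.summable_one_div_int_pow.2 (by norm_num)).mul_left M3
  refine Summable.of_norm_bounded_eventually hs ?_
  filter_upwards [Filter.eventually_cofinite_ne 0] with k hk
  have hk' : (0 : ℝ) < (k : ℝ) ^ 2 := by
    have : (k : ℝ) ≠ 0 := by exact_mod_cast hk
    positivity
  rw [norm_norm, mul_one_div, le_div_iff₀ hk', mul_comm]
  exact h3 k

lemma series_sol {x μ : ℝ} {l : ℤ} {b : ℤ → ℂ} (hb : Summable fun k => ‖b k‖)
    (hr : ∀ k : ℤ, k * b k = μ * b (k - 1) + x * conj (b (-l - k))) (t : ℝ) :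
    HasDerivAt (fun t => ∑' k, b k * ez k t)
      (I * μ * (ez 1 t * ∑' k, b k * ez k t)
        + I * x * (ez (-l) t * conj (∑' k, b k * ez k t))) t := by
  have hs : ∀ t, Summable fun k => b k * ez k t := fun t =>
    Summable.of_norm (by simpa using hb)
  have hb1 : Summable fun k : ℤ => ‖b (k - 1)‖ :=
    ((Equiv.subRight (1 : ℤ)).summable_iff (f := fun k => ‖b k‖)).2 hb
  have hb2 : Summable fun k : ℤ => ‖b (-l - k)‖ :=
    ((Equiv.subLeft (-l)).summable_iff (f := fun k => ‖b k‖)).2 hb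
  have key := hasDerivAt_tsum (u := fun k : ℤ => |μ| * ‖b (k - 1)‖ + |x| * ‖b (-l - k)‖)
    (g := fun k t => b k * ez k t) (g' := fun k t => b k * (k * I * ez k t)) (y₀ := 0)
    ((hb1.mul_left _).add (hb2.mul_left _)) (fun k t => (hasDerivAt_ez k t).const_mul (b k))
    (fun k t => by
      have := norm_add_le ((μ : ℂ) * b (k - 1)) (x * conj (b (-l - k)))
      rw [← hr k] at this
      simpa [mul_comm] using this) (hs 0) t
  refine key.congr_deriv ?_
  have e1 : HasSum (fun k : ℤ => b (k - 1) * ez (k - 1) t) (∑' k, b k * ez k t) :=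
    ((Equiv.subRight (1 : ℤ)).hasSum_iff (f := fun k => b k * ez k t)).2 (hs t).hasSum
  have e2 : HasSum (fun k : ℤ => b (-l - k) * ez (-l - k) t) (∑' k, b k * ez k t) :=
    ((Equiv.subLeft (-l)).hasSum_iff (f := fun k => b k * ez k t)).2 (hs t).hasSum
  have e3 : HasSum (fun k : ℤ => conj (b (-l - k) * ez (-l - k) t)) (conj (∑' k, b k * ez k t)) :=
    Complex.hasSum_conj'.2 e2
  have e4 := ((e1.mul_left (ez 1 t)).mul_left (I * μ)).add
    ((e3.mul_left (ez (-l) t)).mul_left (I * x))
  rw [← e4.tsum_eq]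
  refine tsum_congr fun k => ?_
  have a1 : ez k t = ez 1 t * ez (k - 1) t := by rw [← ez_add]; congr 1; ring
  have a2 : ez k t = ez (-l) t * ez (-(-l - k)) t := by rw [← ez_add]; congr 1; ring
  rw [map_mul, conj_ez]
  linear_combination (I * ez k t) * hr k + (I * μ * b (k - 1)) * a1
    + (I * x * conj (b (-l - k))) * a2

/-- Coefficient form of `mu E - E' = y z^n E(1/z)`. -/
def Coef (n : ℕ) (μ y : ℝ) (e : ℕ → ℝ) : Prop :=
  e (n + 1) = 0 ∧ ∀ j ≤ n, μ * e j - (j + 1) * e (j + 1) = y * e (n - j)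

lemma coef_of_block {n : ℕ} {μ κ : ℝ} {β : ℤ → ℝ}
    (hr : ∀ k : ℤ, k * β k = μ * β (k - 1) + κ * β (-(n + 1 : ℕ) - k)) :
    Coef n μ (-κ * (-1) ^ n)
      (fun j => (-1) ^ j * (n.choose j) * β (-1 - n + j)) := by
  refine ⟨by simp, fun j hj => ?_⟩
  have h1 := hr (-(n : ℤ) + j)
  have e1 : -(n : ℤ) + j - 1 = -1 - n + j := by ring
  have e2 : -((n + 1 : ℕ) : ℤ) - (-(n : ℤ) + j) = -1 - n + ((n - j : ℕ) : ℤ) := by
    push_cast [hj]; ring
  have e3 : -(n : ℤ) + j = -1 - n + ((j + 1 : ℕ) : ℤ) := by push_cast; ring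
  rw [e1, e2] at h1
  have h2 : ((n.choose (j + 1) : ℕ) : ℝ) * (j + 1) = (n.choose j : ℕ) * (n - j) := by
    have := Nat.choose_succ_right_eq n j
    have h3 : ((n - j : ℕ) : ℝ) = n - j := by push_cast [hj]; ring
    rw [← h3]; exact_mod_cast this
  have h4 : (-1 : ℝ) ^ n * (-1) ^ (n - j) = (-1) ^ j := by
    have : n = (n - j) + j := by omega
    conv_lhs => rw [this, pow_add]
    rw [Nat.add_sub_cancel, mul_right_comm, ← mul_pow]; simp
  simp only [Nat.choose_symm hj, pow_succ]
  rw [← e3]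
  push_cast at h1
  linear_combination (-(-1) ^ j * (n.choose j : ℝ)) * h1
    + ((-1) ^ j * β (-(n : ℤ) + j)) * h2
    + (κ * (n.choose j : ℝ) * β (-1 - n + ((n - j : ℕ) : ℤ))) * h4

lemma exists_coef {c B A : ℝ} {n : ℕ} (hB : c * B = ((n + 1 : ℕ) : ℤ)) {ψ : ℝ → ℝ}
    (h : Sol c B A ψ) (d : Dsp ((n + 1 : ℕ) : ℤ) ψ = 0)
    (hP : Pf c ψ (2 * π) = 0) (hI : If c ψ (2 * π) ≠ 0) :
    ∃ (σ : ℝ) (e : ℕ → ℝ), (σ = 1 ∨ σ = -1) ∧ Coef n (c * A / 2) (σ * (c / 2)) e ∧
      ∃ j ≤ n, e j ≠ 0 := by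
  have cψ := h.continuous
  set r : ℤ := ((n + 1 : ℕ) : ℤ) with hr
  set x : ℝ := c / 2 with hx
  set μ : ℝ := c * A / 2 with hμ
  have hψ : ∀ t, HasDerivAt (fun t => (ψ t : ℂ))
      ((-(2 * x) * Real.sin (ψ t) + r + 2 * μ * Real.cos t : ℝ) : ℂ) t := fun t => by
    refine ((h t).congr_deriv ?_).ofReal_comp
    rw [hx, hμ, ← hB]; ring
  have hPr : ∀ t, HasDerivAt (Pf c ψ) (2 * x * Real.cos (ψ t)) t :=
    fun t => (hasDerivAt_Pf c cψ t).congr_deriv (by rw [hx]; ring)
  have hPc : ∀ t, HasDerivAt (fun t => (Pf c ψ t : ℂ)) ((2 * x * Real.cos (ψ t) : ℝ) : ℂ) t :=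
    fun t => (hPr t).ofReal_comp
  have hIr : ∀ t, HasDerivAt (If c ψ) (2 * x * (Real.exp (-Pf c ψ t) * Real.sin (ψ t))) t :=
    fun t => (hasDerivAt_If c cψ t).congr_deriv (by rw [hx]; ring)
  have hid : ∀ t : ℝ, HasDerivAt (fun t : ℝ => (t : ℂ)) 1 t :=
    fun t => Complex.ofRealCLM.hasDerivAt
  have hcos : ∀ t : ℝ, HasDerivAt (fun t : ℝ => (Real.cos t : ℂ)) ((-Real.sin t : ℝ) : ℂ) t :=
    fun t => (Real.hasDerivAt_cos t).ofReal_comp
  have hI2 : I * I = -1 := I_mul_I
  set f : ℝ → ℂ := fun t =>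
    cexp (Pf c ψ t / 2 + μ * Real.cos t + I / 2 * (ψ t - r * t + π / 2)) with hfdef
  have f0 : ∀ t, f t ≠ 0 := fun t => exp_ne_zero _
  have hconj : ∀ t, ez (-r) t * conj (f t)
      = (-Real.sin (ψ t) - I * Real.cos (ψ t)) * f t := fun t => by
    have e1 : (-Real.sin (ψ t) - I * Real.cos (ψ t) : ℂ) = cexp ((-ψ t - π / 2 : ℂ) * I) := by
      rw [exp_mul_I, Complex.cos_sub_pi_div_two, Complex.sin_sub_pi_div_two]
      simp; ring
    rw [e1]
    simp only [hfdef, ez]
    rw [← Complex.exp_conj, ← Complex.exp_add, ← Complex.exp_add]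
    congr 1
    simp only [map_add, map_mul, map_div₀, map_sub, conj_ofReal, conj_I, map_ofNat, map_intCast]
    push_cast
    ring
  have hez1 : ∀ t, ez 1 t = Real.cos t + I * Real.sin t := fun t => by
    unfold ez
    rw [show ((1 : ℤ) : ℂ) * t * I = t * I by simp, exp_mul_I]
    simp; ring
  have hf : ∀ t, HasDerivAt f
      (I * μ * (ez 1 t * f t) + I * x * (ez (-r) t * conj (f t))) t := fun t => by
    have := ((((hPc t).div_const 2).add ((hcos t).const_mul (μ : ℂ))).add
      ((((hψ t).sub ((hid t).const_mul (r : ℂ))).add_const ((π : ℂ) / 2)).const_mul (I / 2))).cexp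
    refine this.congr_deriv ?_
    rw [hconj, hez1]
    simp only [Pi.add_apply, Pi.sub_apply]
    change f t * _ = _
    push_cast
    linear_combination (f t * (x * Complex.cos (ψ t) - μ * Complex.sin t)) * hI2
  have cf' : Continuous f := continuous_iff_continuousAt.2 fun t => (hf t).continuousAt
  have hψp : ψ (2 * π) = ψ 0 + r * (2 * π) := by unfold Dsp at d; linarith
  have pf : f (2 * π) = f 0 := by
    simp only [hfdef, hP, hψp, Pf_zero, Real.cos_two_pi, Real.cos_zero]
    congr 1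
    push_cast
    ring
  have rec1 : ∀ k : ℤ, k * cf f k = μ * cf f (k - 1) + x * conj (cf f (-r - k)) := fun k => by
    have := cf_deriv hf (by fun_prop) pf k
    rw [cf_add (by fun_prop) (by fun_prop), cf_const_mul, cf_const_mul, cf_ez_mul, cf_ez_mul,
      cf_conj] at this
    rw [show -(k - -r) = -r - k by ring] at this
    linear_combination I * this
      + (k * cf f k - μ * cf f (k - 1) - x * conj (cf f (-r - k))) * hI2
  have block : ∃ j ≤ n, cf f (-1 - n + j) ≠ 0 := by
    by_contra hn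
    push Not at hn
    have hz : ∀ k : ℤ, -r ≤ k → k < 0 → cf f k = 0 := by
      intro k h1 h2
      have := hn (k + 1 + n).toNat (by omega)
      rwa [show -1 - (n : ℤ) + ((k + 1 + n).toNat : ℤ) = k by omega] at this
    set b : ℤ → ℂ := fun k => (if 0 ≤ k then I else -I) * cf f k with hb
    have hbn : ∀ k, ‖b k‖ = ‖cf f k‖ := fun k => by
      simp only [hb]; split_ifs <;> simp
    have rec2 : ∀ k : ℤ, k * b k = μ * b (k - 1) + x * conj (b (-r - k)) := fun k => by
      have e := rec1 k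
      simp only [hb, map_mul]
      rcases lt_trichotomy k 0 with hk | hk | hk
      · rw [if_neg (by omega), if_neg (by omega)]
        by_cases h2 : 0 ≤ -r - k
        · rw [if_pos h2, conj_I]; linear_combination (-I) * e
        · rw [hz (-r - k) (by omega) (by omega)] at e ⊢
          simp only [map_zero, mul_zero, add_zero] at e ⊢
          linear_combination (-I) * e
      · subst hk
        rw [hz (0 - 1) (by omega) (by omega), hz (-r - 0) (by omega) (by omega)]
        simp
      · rw [if_pos (by omega), if_pos (by omega), if_neg (by omega), map_neg, conj_I]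
        linear_combination I * e
    obtain ⟨M, hM⟩ := cf_bound f
    have hsum : Summable fun k => ‖b k‖ :=
      summable_of_rec (M := M) (fun k => (hbn k).le.trans (hM k)) rec2
    set g : ℝ → ℂ := fun t => ∑' k, b k * ez k t with hg
    have hgd : ∀ t, HasDerivAt g
        (I * μ * (ez 1 t * g t) + I * x * (ez (-r) t * conj (g t))) t := series_sol hsum rec2
    have pg : g (2 * π) = g 0 := by simp [hg]
    set G : ℝ → ℂ := fun t => g t / f t with hG
    have hGd : ∀ t, HasDerivAt G
        (2 * x * (G t).im * (-Real.sin (ψ t) - I * Real.cos (ψ t))) t := fun t => by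
      refine ((hgd t).div (hf t) (f0 t)).congr_deriv ?_
      have e1 : g t = G t * f t := by simp only [hG]; field_simp [f0 t]
      have e2 : conj (G t) = G t - 2 * I * (G t).im := by
        have := Complex.sub_conj (G t)
        push_cast at this
        linear_combination -this
      rw [div_eq_iff (pow_ne_zero 2 (f0 t)), e1, map_mul, e2]
      linear_combination (I * x * f t * (-2 * I * (G t).im)) * hconj t
        + (-2 * x * f t ^ 2 * (G t).im * (-Real.sin (ψ t) - I * Real.cos (ψ t))) * hI2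
    have hre : ∀ t, HasDerivAt (fun t => (G t).re) (-(2 * x * (G t).im * Real.sin (ψ t))) t :=
      fun t => (Complex.reCLM.hasFDerivAt.comp_hasDerivAt t (hGd t)).congr_deriv (by
        simp [sin_ofReal_re])
    have him : ∀ t, HasDerivAt (fun t => (G t).im) (-(2 * x * (G t).im * Real.cos (ψ t))) t :=
      fun t => (Complex.imCLM.hasFDerivAt.comp_hasDerivAt t (hGd t)).congr_deriv (by
        simp [cos_ofReal_re])
    have c1 : ∀ t, (G t).im * Real.exp (Pf c ψ t) = (G 0).im := fun t => by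
      have := is_const_of_deriv_eq_zero (f := fun t => (G t).im * Real.exp (Pf c ψ t))
        (fun t => ((him t).mul (hPr t).exp).differentiableAt)
        (fun t => (((him t).mul (hPr t).exp).congr_deriv (g' := 0) (by ring)).deriv) t 0
      simpa using this
    have c1' : ∀ t, (G t).im = (G 0).im * Real.exp (-Pf c ψ t) := fun t => by
      rw [← c1 t, mul_assoc, ← Real.exp_add]; simp
    have c2 : ∀ t, (G t).re + (G 0).im * If c ψ t = (G 0).re := fun t => by
      have := is_const_of_deriv_eq_zero (f := fun t => (G t).re + (G 0).im * If c ψ t)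
        (fun t => ((hre t).add ((hIr t).const_mul _)).differentiableAt)
        (fun t => (((hre t).add ((hIr t).const_mul (G 0).im)).congr_deriv (g' := 0) (by
          rw [c1' t]; ring)).deriv) t 0
      simpa using this
    have pG : G (2 * π) = G 0 := by simp only [hG, pg, pf]
    have c3 : (G 0).im = 0 := by
      have := c2 (2 * π)
      rw [pG] at this
      exact (mul_eq_zero.1 (by linarith)).resolve_right hI
    have c4 : g = fun t => ((G 0).re : ℂ) * f t := by
      ext t
      have e1 : g t = G t * f t := by simp only [hG]; field_simp [f0 t]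
      have e2 : G t = (G 0).re := by
        apply Complex.ext
        · have := c2 t; rw [c3] at this; simpa using this
        · rw [c1' t, c3]; simp
      rw [e1, e2]
    refine f0 0 (cf_unique cf' pf fun k => ?_)
    have e1 := cf_tsum hsum k
    change cf g k = _ at e1
    rw [c4, cf_const_mul] at e1
    simp only [hb] at e1
    have e2 : (((G 0).re : ℂ) - 2 * π * (if 0 ≤ k then I else -I)) * cf f k = 0 := by
      linear_combination e1
    refine (mul_eq_zero.1 e2).resolve_left fun h0 => ?_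
    have := congrArg Complex.im h0
    split_ifs at this <;> simp [Real.pi_ne_zero] at this
  obtain ⟨j, hj, hne⟩ := block
  have hpm : ((-1 : ℝ) ^ n = 1 ∨ (-1 : ℝ) ^ n = -1) := neg_one_pow_eq_or ℝ n
  have hch : ((-1 : ℝ) ^ j * (n.choose j : ℝ)) ≠ 0 :=
    mul_ne_zero (pow_ne_zero _ (by norm_num)) (by exact_mod_cast (Nat.choose_pos hj).ne')
  by_cases hre : (cf f (-1 - n + j)).re = 0
  · have him : (cf f (-1 - n + j)).im ≠ 0 := fun h0 => hne (Complex.ext hre h0)
    have := coef_of_block (n := n) (μ := μ) (κ := -x) (β := fun k => (cf f k).im) (fun k => by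
      have := congrArg Complex.im (rec1 k)
      simpa [hr] using this)
    refine ⟨(-1) ^ n, _, hpm, by rwa [neg_neg, mul_comm] at this, j, hj, mul_ne_zero hch him⟩
  · have := coef_of_block (n := n) (μ := μ) (κ := x) (β := fun k => (cf f k).re) (fun k => by
      have := congrArg Complex.re (rec1 k)
      simpa [hr] using this)
    refine ⟨-(-1) ^ n, _, by rcases hpm with h | h <;> simp [h],
      by rwa [neg_mul, mul_comm, ← neg_mul] at this, j, hj, mul_ne_zero hch hre⟩

end Pool.Agent.P.MP_a6130f_an
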