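import Mathlib

set_option autoImplicit false

/-! Basic theory of the equation `psi' = c (- sin psi + B + A cos t)`. -/

namespace Pool.Agent.P.MP_a6130f_an

open Real Set Filter Topology

/-- `psi` is a global solution. -/
def Sol (c B A : ℝ) (ψ : ℝ → ℝ) : Prop :=
  ∀ t : ℝ, HasDerivAt ψ (c * (-sin (ψ t) + B + A * cos t)) t

lemma lip (c B A t : ℝ) :
    LipschitzWith (Real.nnabs c) (fun y : ℝ => c * (-sin y + B + A * cos t)) := by
  refine LipschitzWith.of_dist_le_mul fun y z => ?_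
  rw [Real.dist_eq, Real.dist_eq]
  have h : c * (-sin y + B + A * cos t) - c * (-sin z + B + A * cos t) = -c * (sin y - sin z) := by
    ring
  rw [h, abs_mul, abs_neg]
  simp only [Real.coe_nnabs]
  exact mul_le_mul_of_nonneg_left (Real.abs_sin_sub_sin_le y z) (abs_nonneg _)

lemma Sol.continuous {c B A : ℝ} {ψ : ℝ → ℝ} (h : Sol c B A ψ) : Continuous ψ :=
  continuous_iff_continuousAt.2 fun t => (h t).continuousAt

lemma Sol.unique {c B A : ℝ} {ψ χ : ℝ → ℝ} (h : Sol c B A ψ) (h' : Sol c B A χ) {t₀ : ℝ}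
    (e : ψ t₀ = χ t₀) : ψ = χ :=
  ODE_solution_unique_univ (v := fun t y => c * (-sin y + B + A * cos t)) (s := fun _ => univ)
    (K := Real.nnabs c) (fun t => (lip c B A t).lipschitzOnWith)
    (fun t => ⟨h t, mem_univ _⟩) (fun t => ⟨h' t, mem_univ _⟩) e

lemma exists_local (c B A y : ℝ) (N : ℕ) :
    ∃ α : ℝ → ℝ, α 0 = y ∧ ∀ t ∈ Ioo (-(N : ℝ) - 1) (N + 1),
      HasDerivAt α (c * (-sin (α t) + B + A * cos t)) t := by
  have hN : (0 : ℝ) ≤ N := Nat.cast_nonneg N
  have h0 : (0 : ℝ) ∈ Icc (-(N : ℝ) - 1) (N + 1) := ⟨by linarith, by linarith⟩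
  set L : NNReal := Real.nnabs c * (1 + Real.nnabs B + Real.nnabs A) with hL
  have hpl : IsPicardLindelof (fun t y => c * (-sin y + B + A * cos t))
      (⟨0, h0⟩ : Icc (-(N : ℝ) - 1) (N + 1)) y (L * (N + 1)) 0 L (Real.nnabs c) := by
    refine ⟨fun t _ => (lip c B A t).lipschitzOnWith, fun x _ => ?_, fun t _ x _ => ?_, ?_⟩
    · fun_prop
    · rw [Real.norm_eq_abs, abs_mul, hL]
      push_cast
      refine mul_le_mul_of_nonneg_left ?_ (abs_nonneg _)
      have h1 : |(-sin x)| ≤ 1 := by rw [abs_neg]; exact abs_sin_le_one x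
      have h2 : |A * cos t| ≤ |A| := by
        rw [abs_mul]; exact mul_le_of_le_one_right (abs_nonneg _) (abs_cos_le_one t)
      have h3 := abs_add_three (-sin x) B (A * cos t)
      linarith
    · push_cast
      simp [add_comm]
  obtain ⟨α, hα0, hα⟩ := hpl.exists_eq_forall_mem_Icc_hasDerivWithinAt₀
  refine ⟨α, hα0, fun t ht => ?_⟩
  exact (hα t (Ioo_subset_Icc_self ht)).hasDerivAt (Icc_mem_nhds ht.1 ht.2)

lemma exists_sol (c B A y : ℝ) : ∃ ψ : ℝ → ℝ, Sol c B A ψ ∧ ψ 0 = y := by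
  choose α hα0 hα using exists_local c B A y
  have agree : ∀ M N : ℕ, M ≤ N → EqOn (α M) (α N) (Ioo (-(M : ℝ) - 1) (M + 1)) := by
    intro M N hMN
    have hMN' : (M : ℝ) ≤ N := by exact_mod_cast hMN
    have hM : (0 : ℝ) ≤ M := Nat.cast_nonneg M
    refine ODE_solution_unique_of_mem_Ioo (v := fun t y => c * (-sin y + B + A * cos t))
      (s := fun _ => univ) (K := Real.nnabs c) (t₀ := 0)
      (fun t _ => (lip c B A t).lipschitzOnWith) ⟨by linarith, by linarith⟩
      (fun t ht => ⟨hα M t ht, mem_univ _⟩)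
      (fun t ht => ⟨hα N t ⟨by linarith [ht.1], by linarith [ht.2]⟩, mem_univ _⟩) ?_
    rw [hα0, hα0]
  have mem : ∀ t : ℝ, t ∈ Ioo (-(⌈|t|⌉₊ : ℝ) - 1) (⌈|t|⌉₊ + 1) := by
    intro t
    have h1 := Nat.le_ceil |t|
    have h2 := le_abs_self t
    have h3 := neg_abs_le t
    exact ⟨by linarith, by linarith⟩
  refine ⟨fun t => α ⌈|t|⌉₊ t, fun t => ?_, by simp [hα0]⟩
  have hev : (fun s => α ⌈|s|⌉₊ s) =ᶠ[𝓝 t] α ⌈|t|⌉₊ := by
    filter_upwards [Ioo_mem_nhds (mem t).1 (mem t).2] with s hs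
    rcases le_total ⌈|s|⌉₊ ⌈|t|⌉₊ with h | h
    · exact agree _ _ h (mem s)
    · exact (agree _ _ h hs).symm
  exact (hα _ t (mem t)).congr_of_eventuallyEq hev

lemma Sol.shift {c B A : ℝ} {ψ : ℝ → ℝ} (h : Sol c B A ψ) (k : ℤ) :
    Sol c B A (fun t => ψ (t + 2 * π) + k * (2 * π)) := by
  intro t
  have h1 := ((h (t + 2 * π)).comp_add_const t (2 * π)).add_const ((k : ℝ) * (2 * π))
  simpa [Real.sin_add_int_mul_two_pi, Real.cos_add_two_pi] using h1

lemma Sol.add_int {c B A : ℝ} {ψ : ℝ → ℝ} (h : Sol c B A ψ) (k : ℤ) :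
    Sol c B A (fun t => ψ t + k * (2 * π)) := by
  intro t
  have h1 := (h t).add_const ((k : ℝ) * (2 * π))
  simpa [Real.sin_add_int_mul_two_pi] using h1

lemma Sol.le_of_le {c B A : ℝ} {ψ χ : ℝ → ℝ} (h : Sol c B A ψ) (h' : Sol c B A χ) {t₀ : ℝ}
    (e : ψ t₀ ≤ χ t₀) (t : ℝ) : ψ t ≤ χ t := by
  by_contra hlt
  push Not at hlt
  have hc : Continuous fun s => ψ s - χ s := h.continuous.sub h'.continuous
  have : (0 : ℝ) ∈ range fun s => ψ s - χ s :=
    intermediate_value_univ t₀ t hc ⟨by simpa using e, by simpa using hlt.le⟩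
  obtain ⟨s, hs⟩ := this
  have := h.unique h' (t₀ := s) (by simpa [sub_eq_zero] using hs)
  rw [this] at hlt
  exact lt_irrefl _ hlt

/-- Gronwall estimate at time `2 pi`. -/
lemma Sol.dist_le {c B A B' A' : ℝ} (hc : 0 < c) {ψ χ : ℝ → ℝ} (h : Sol c B A ψ)
    (h' : Sol c B' A' χ) :
    |ψ (2 * π) - χ (2 * π)| ≤ exp (c * (2 * π)) * (|ψ 0 - χ 0| + |B - B'| + |A - A'|) := by
  have hπ : (0 : ℝ) ≤ 2 * π := by positivity
  have key := norm_le_gronwallBound_of_norm_deriv_right_le (f := fun t => ψ t - χ t)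
    (f' := fun t => c * (-sin (ψ t) + B + A * cos t) - c * (-sin (χ t) + B' + A' * cos t))
    (δ := |ψ 0 - χ 0|) (K := c) (ε := c * (|B - B'| + |A - A'|)) (a := 0) (b := 2 * π)
    (h.continuous.sub h'.continuous).continuousOn
    (fun t _ => ((h t).sub (h' t)).hasDerivWithinAt) (by simp) (fun t _ => by
      rw [Real.norm_eq_abs, Real.norm_eq_abs]
      have e : c * (-sin (ψ t) + B + A * cos t) - c * (-sin (χ t) + B' + A' * cos t)
          = c * (-(sin (ψ t) - sin (χ t)) + (B - B') + (A - A') * cos t) := by ring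
      rw [e, abs_mul, abs_of_pos hc, ← mul_add]
      refine mul_le_mul_of_nonneg_left ?_ hc.le
      have h1 : |(-(sin (ψ t) - sin (χ t)))| ≤ |ψ t - χ t| := by
        rw [abs_neg]; exact Real.abs_sin_sub_sin_le _ _
      have h2 : |(A - A') * cos t| ≤ |A - A'| := by
        rw [abs_mul]; exact mul_le_of_le_one_right (abs_nonneg _) (abs_cos_le_one t)
      have h3 := abs_add_three (-(sin (ψ t) - sin (χ t))) (B - B') ((A - A') * cos t)
      linarith) (2 * π) ⟨hπ, le_rfl⟩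
  rw [gronwallBound_of_K_ne_0 hc.ne', Real.norm_eq_abs] at key
  simp only [sub_zero] at key
  rw [mul_div_cancel_left₀ _ hc.ne'] at key
  have h1 := abs_nonneg (B - B')
  have h2 := abs_nonneg (A - A')
  nlinarith

/-- Strict monotonicity in `B`. -/
lemma Sol.lt_of_lt {c B A B' : ℝ} (hc : 0 < c) {ψ χ : ℝ → ℝ} (h : Sol c B A ψ)
    (h' : Sol c B' A χ) (hB : B < B') (e : ψ 0 = χ 0) : ψ (2 * π) < χ (2 * π) := by
  have hπ : (0 : ℝ) < 2 * π := by positivity
  have hg : ∀ t : ℝ, HasDerivAt (fun t => (B' - B) / 2 * (1 - exp (-(c * t))))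
      ((B' - B) / 2 * (c * exp (-(c * t)))) t := by
    intro t
    have := ((((hasDerivAt_id t).const_mul c).neg.exp).const_sub 1).const_mul ((B' - B) / 2)
    simpa [mul_comm] using this
  have key := image_le_of_deriv_right_lt_deriv_boundary
    (f := fun t => (B' - B) / 2 * (1 - exp (-(c * t))))
    (f' := fun t => (B' - B) / 2 * (c * exp (-(c * t)))) (a := 0) (b := 2 * π)
    (by fun_prop) (fun t _ => (hg t).hasDerivWithinAt) (B := fun t => χ t - ψ t)
    (B' := fun t => c * (-sin (χ t) + B' + A * cos t) - c * (-sin (ψ t) + B + A * cos t))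
    (by simp [e]) (fun t => (h' t).sub (h t)) (fun t ht he => by
      have h1 : exp (-(c * t)) ≤ 1 := by
        rw [exp_le_one_iff]; nlinarith [ht.1]
      have h2 : 0 ≤ χ t - ψ t := by rw [← he]; nlinarith
      have h3 := Real.abs_sin_sub_sin_le (χ t) (ψ t)
      rw [abs_of_nonneg h2] at h3
      have h4 := (abs_le.1 h3).2
      have h5 : (B' - B) / 2 * exp (-(c * t)) = (B' - B) / 2 - (χ t - ψ t) := by
        rw [← he]; ring
      have e1 : (B' - B) / 2 * (c * exp (-(c * t))) = c * ((B' - B) / 2 - (χ t - ψ t)) := by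
        rw [← h5]; ring
      have e2 : c * (-sin (χ t) + B' + A * cos t) - c * (-sin (ψ t) + B + A * cos t)
          = c * ((B' - B) - (sin (χ t) - sin (ψ t))) := by ring
      show (B' - B) / 2 * (c * exp (-(c * t))) < _
      rw [e1, e2]
      refine mul_lt_mul_of_pos_left ?_ hc
      linarith) (x := 2 * π) ⟨hπ.le, le_rfl⟩
  have h1 : exp (-(c * (2 * π))) < 1 := by
    rw [exp_lt_one_iff]; nlinarith
  have : 0 < (B' - B) / 2 * (1 - exp (-(c * (2 * π)))) := by
    apply mul_pos <;> linarith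
  linarith

end Pool.Agent.P.MP_a6130f_an
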