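import Mathlib

set_option autoImplicit false

/-! Unnormalised Fourier coefficients on `[0, 2 pi]`. -/

namespace Pool.Agent.P.MP_a6130f_an

open Set Filter Topology Complex
open scoped Real ComplexConjugate

/-- `exp (i k t)`. -/
noncomputable def ez (k : ℤ) (t : ℝ) : ℂ := cexp (k * t * I)

/-- Unnormalised Fourier coefficient. -/
noncomputable def cf (f : ℝ → ℂ) (k : ℤ) : ℂ := ∫ t in (0 : ℝ)..2 * π, ez (-k) t * f t

lemma ez_add (j k : ℤ) (t : ℝ) : ez (j + k) t = ez j t * ez k t := by
  unfold ez; rw [← Complex.exp_add]; congr 1; push_cast; ring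

@[simp] lemma ez_zero (t : ℝ) : ez 0 t = 1 := by simp [ez]

@[simp] lemma ez_at_zero (k : ℤ) : ez k 0 = 1 := by simp [ez]

@[simp] lemma ez_two_pi (k : ℤ) : ez k (2 * π) = 1 := by
  unfold ez
  rw [← Complex.exp_int_mul_two_pi_mul_I k]; congr 1; push_cast; ring

@[simp] lemma norm_ez (k : ℤ) (t : ℝ) : ‖ez k t‖ = 1 := by
  unfold ez
  have : (k : ℂ) * t * I = ((k * t : ℝ) : ℂ) * I := by push_cast; ring
  rw [this, norm_exp_ofReal_mul_I]

lemma conj_ez (k : ℤ) (t : ℝ) : conj (ez k t) = ez (-k) t := by
  unfold ez; rw [← Complex.exp_conj]; congr 1; simp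

@[fun_prop] lemma continuous_ez (k : ℤ) : Continuous (ez k) := by unfold ez; fun_prop

lemma hasDerivAt_ez (k : ℤ) (t : ℝ) : HasDerivAt (ez k) (k * I * ez k t) t := by
  have h : HasDerivAt (fun s : ℝ => (k : ℂ) * s * I) (k * 1 * I) t :=
    ((Complex.ofRealCLM.hasDerivAt (x := t)).const_mul (k : ℂ)).mul_const I
  exact h.cexp.congr_deriv (by unfold ez; ring)

lemma cf_add {f g : ℝ → ℂ} (hf : Continuous f) (hg : Continuous g) (k : ℤ) :
    cf (fun t => f t + g t) k = cf f k + cf g k := by
  unfold cf
  rw [← intervalIntegral.integral_add (Continuous.intervalIntegrable (by fun_prop) _ _)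
    (Continuous.intervalIntegrable (by fun_prop) _ _)]
  congr 1; ext t; ring

lemma cf_const_mul (a : ℂ) (f : ℝ → ℂ) (k : ℤ) : cf (fun t => a * f t) k = a * cf f k := by
  unfold cf
  rw [← intervalIntegral.integral_const_mul]
  congr 1; ext t; ring

lemma cf_ez_mul (m : ℤ) (f : ℝ → ℂ) (k : ℤ) : cf (fun t => ez m t * f t) k = cf f (k - m) := by
  unfold cf
  congr 1; ext t
  rw [← mul_assoc, ← ez_add]; congr 2; ring

lemma cf_conj (f : ℝ → ℂ) (k : ℤ) : cf (fun t => conj (f t)) k = conj (cf f (-k)) := by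
  unfold cf
  rw [← intervalIntegral.intervalIntegral_conj]
  congr 1; ext t
  rw [map_mul, conj_ez]; simp

lemma cf_deriv {f f' : ℝ → ℂ} (hf : ∀ t, HasDerivAt f (f' t) t) (hf' : Continuous f')
    (hp : f (2 * π) = f 0) (k : ℤ) : cf f' k = k * I * cf f k := by
  have hc : Continuous f := continuous_iff_continuousAt.2 fun t => (hf t).continuousAt
  have h1 := intervalIntegral.integral_eq_sub_of_hasDerivAt (a := 0) (b := 2 * π)
    (f := fun t => ez (-k) t * f t)
    (f' := fun t => ((-k : ℤ) * I * ez (-k) t) * f t + ez (-k) t * f' t)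
    (fun t _ => (hasDerivAt_ez (-k) t).mul (hf t))
    (Continuous.intervalIntegrable (by fun_prop) _ _)
  rw [intervalIntegral.integral_add (Continuous.intervalIntegrable (by fun_prop) _ _)
    (Continuous.intervalIntegrable (by fun_prop) _ _)] at h1
  simp only [ez_two_pi, ez_at_zero, hp, sub_self, mul_assoc,
    intervalIntegral.integral_const_mul] at h1
  unfold cf
  push_cast at h1
  linear_combination h1

lemma cf_bound (f : ℝ → ℂ) : ∃ M, ∀ k, ‖cf f k‖ ≤ M := by
  refine ⟨∫ t in (0 : ℝ)..2 * π, ‖f t‖, fun k => ?_⟩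
  unfold cf
  refine (intervalIntegral.norm_integral_le_integral_norm (by positivity)).trans (le_of_eq ?_)
  simp

lemma cf_unique {f : ℝ → ℂ} (hf : Continuous f) (hp : f (2 * π) = f 0)
    (h : ∀ k, cf f k = 0) : f 0 = 0 := by
  have : Fact (0 < 2 * π) := ⟨by positivity⟩
  let F : C(AddCircle (2 * π), ℂ) :=
    ⟨AddCircle.liftIco (2 * π) 0 f, AddCircle.liftIco_zero_continuous hp.symm hf.continuousOn⟩
  have hF : ∀ k, fourierCoeff F k = 0 := by
    intro k
    rw [fourierCoeff_eq_intervalIntegral _ _ 0, zero_add]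
    have : ∫ x in (0 : ℝ)..2 * π, fourier (-k) (x : AddCircle (2 * π)) • F x = cf f k := by
      unfold cf
      refine intervalIntegral.integral_congr_Ioo_of_le (by positivity) fun x hx => ?_
      have e : F x = f x := AddCircle.liftIco_coe_apply (by
        rw [zero_add]; exact Ioo_subset_Ico_self hx)
      simp only [e, fourier_coe_apply, smul_eq_mul, ez]
      congr 2
      have : (π : ℂ) ≠ 0 := by exact_mod_cast Real.pi_ne_zero
      push_cast
      field_simp
    rw [this, h, smul_zero]
  have hs : Summable (fourierCoeff F) := by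
    rw [show fourierCoeff F = 0 from funext hF]; exact summable_zero
  have h1 := has_pointwise_sum_fourier_series_of_summable hs ((0 : ℝ) : AddCircle (2 * π))
  simp only [hF, zero_smul] at h1
  have e : F ((0 : ℝ) : AddCircle (2 * π)) = f 0 := AddCircle.liftIco_coe_apply (by
    rw [zero_add]; exact ⟨le_rfl, by positivity⟩)
  rw [← e]
  exact h1.unique hasSum_zero

lemma integral_ez (k : ℤ) :
    ∫ t in (0 : ℝ)..2 * π, ez k t = if k = 0 then (2 * π : ℂ) else 0 := by
  split_ifs with hk
  · subst hk; simp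
  · have hk' : (k : ℂ) * I ≠ 0 := mul_ne_zero (by exact_mod_cast hk) I_ne_zero
    have h1 := intervalIntegral.integral_eq_sub_of_hasDerivAt (a := 0) (b := 2 * π)
      (f := ez k) (f' := fun t => k * I * ez k t) (fun t _ => hasDerivAt_ez k t)
      (Continuous.intervalIntegrable (by fun_prop) _ _)
    rw [intervalIntegral.integral_const_mul] at h1
    simpa [hk'] using h1

lemma cf_tsum {b : ℤ → ℂ} (hb : Summable fun k => ‖b k‖) (m : ℤ) :
    cf (fun t => ∑' k, b k * ez k t) m = 2 * π * b m := by
  have h1 := intervalIntegral.hasSum_integral_of_dominated_convergence (μ := MeasureTheory.volume)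
    (a := 0) (b := 2 * π) (F := fun k t => ez (-m) t * (b k * ez k t))
    (f := fun t => ez (-m) t * ∑' k, b k * ez k t) (fun k _ => ‖b k‖)
    (fun k => Continuous.aestronglyMeasurable (by fun_prop))
    (fun k => MeasureTheory.ae_of_all _ fun t _ => by simp)
    (MeasureTheory.ae_of_all _ fun t _ => hb) intervalIntegrable_const
    (MeasureTheory.ae_of_all _ fun t _ => by
      have hs : Summable fun k => b k * ez k t := Summable.of_norm (by simpa using hb)
      exact hs.hasSum.mul_left (ez (-m) t))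
  have h2 : ∀ k, ∫ t in (0 : ℝ)..2 * π, ez (-m) t * (b k * ez k t)
      = if k = m then 2 * π * b m else 0 := by
    intro k
    have : ∀ t, ez (-m) t * (b k * ez k t) = b k * ez (k - m) t := by
      intro t; rw [sub_eq_add_neg, ez_add]; ring
    simp only [this, intervalIntegral.integral_const_mul, integral_ez, sub_eq_zero]
    split_ifs with h
    · subst h; ring
    · simp
  simp only [h2] at h1
  exact h1.unique (hasSum_ite_eq m _)

end Pool.Agent.P.MP_a6130f_an
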