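import Pool.Agent.P.MP_a6130f_an.Flow

set_option autoImplicit false

/-! The phase-lock area and its boundary in terms of the displacement over one period. -/

namespace Pool.Agent.P.MP_a6130f_an

open Real Set Filter Topology

/-- Phase-lock area (time rescaled to period `2 pi`). -/
def Lk (c : ℝ) (r : ℤ) : Set (ℝ × ℝ) :=
  {p | ∀ ψ : ℝ → ℝ, Sol c p.1 p.2 ψ → Tendsto (fun t => ψ t / t) atTop (𝓝 (r : ℝ))}

/-- Displacement over one period, minus `2 pi r`. -/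
noncomputable def Dsp (r : ℤ) (ψ : ℝ → ℝ) : ℝ := ψ (2 * π) - ψ 0 - r * (2 * π)

lemma bdd_above_of_step {h : ℝ → ℝ} (hc : Continuous h) (hs : ∀ t, h (t + 2 * π) ≤ h t) :
    ∃ C, ∀ t, 0 ≤ t → h t ≤ C := by
  have hπ : (0 : ℝ) < 2 * π := by positivity
  obtain ⟨C, hC⟩ := (isCompact_Icc (a := (0 : ℝ)) (b := 2 * π)).bddAbove_image hc.continuousOn
  refine ⟨C, fun t ht => ?_⟩
  have key : ∀ n : ℕ, ∀ s, h (s + n * (2 * π)) ≤ h s := by
    intro n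
    induction n with
    | zero => simp
    | succ n ih =>
      intro s
      have := hs (s + n * (2 * π))
      have e : s + ((n + 1 : ℕ) : ℝ) * (2 * π) = s + n * (2 * π) + 2 * π := by push_cast; ring
      rw [e]; exact this.trans (ih s)
  set n := ⌊t / (2 * π)⌋₊ with hn
  have h1 : (n : ℝ) ≤ t / (2 * π) := Nat.floor_le (by positivity)
  have h2 : t / (2 * π) < n + 1 := Nat.lt_floor_add_one _
  rw [le_div_iff₀ hπ] at h1
  rw [div_lt_iff₀ hπ] at h2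
  have := key n (t - n * (2 * π))
  rw [sub_add_cancel] at this
  exact this.trans (hC ⟨_, ⟨by linarith, by linarith⟩, rfl⟩)

lemma upper_bound {c B A : ℝ} {r : ℤ} {ψ₀ ψ : ℝ → ℝ} (h₀ : Sol c B A ψ₀) (hd : Dsp r ψ₀ ≤ 0)
    (h : Sol c B A ψ) : ∃ C, ∀ t, 0 ≤ t → ψ t - r * t ≤ C := by
  have hπ : (0 : ℝ) < 2 * π := by positivity
  have h1 : ∀ t, ψ₀ (t + 2 * π) + ((-r : ℤ) : ℝ) * (2 * π) ≤ ψ₀ t := fun t =>
    (h₀.shift (-r)).le_of_le h₀ (t₀ := 0) (by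
      unfold Dsp at hd; push_cast; rw [zero_add]; linarith) t
  obtain ⟨C, hC⟩ := bdd_above_of_step (h := fun t => ψ₀ t - r * t)
    (h₀.continuous.sub (by fun_prop)) (fun t => by have := h1 t; push_cast at this; linarith)
  obtain ⟨k, hk⟩ := exists_int_gt ((ψ 0 - ψ₀ 0) / (2 * π))
  rw [div_lt_iff₀ hπ] at hk
  have h2 : ∀ t, ψ t ≤ ψ₀ t + k * (2 * π) := fun t =>
    h.le_of_le (h₀.add_int k) (t₀ := 0) (by linarith) t
  exact ⟨C + k * (2 * π), fun t ht => by have := hC t ht; have := h2 t; linarith⟩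

lemma lower_bound {c B A : ℝ} {r : ℤ} {ψ₀ ψ : ℝ → ℝ} (h₀ : Sol c B A ψ₀) (hd : 0 ≤ Dsp r ψ₀)
    (h : Sol c B A ψ) : ∃ C, ∀ t, 0 ≤ t → r * t - ψ t ≤ C := by
  have hπ : (0 : ℝ) < 2 * π := by positivity
  have h1 : ∀ t, ψ₀ t ≤ ψ₀ (t + 2 * π) + ((-r : ℤ) : ℝ) * (2 * π) := fun t =>
    h₀.le_of_le (h₀.shift (-r)) (t₀ := 0) (by
      unfold Dsp at hd; push_cast; rw [zero_add]; linarith) t
  obtain ⟨C, hC⟩ := bdd_above_of_step (h := fun t => r * t - ψ₀ t)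
    (Continuous.sub (by fun_prop) h₀.continuous)
    (fun t => by have := h1 t; push_cast at this; linarith)
  obtain ⟨k, hk⟩ := exists_int_lt ((ψ 0 - ψ₀ 0) / (2 * π))
  rw [lt_div_iff₀ hπ] at hk
  have h2 : ∀ t, ψ₀ t + k * (2 * π) ≤ ψ t := fun t =>
    (h₀.add_int k).le_of_le h (t₀ := 0) (by linarith) t
  exact ⟨C - k * (2 * π), fun t ht => by have := hC t ht; have := h2 t; linarith⟩

lemma mem_Lk {c B A : ℝ} {r : ℤ} {ψ₀ ψ₁ : ℝ → ℝ} (h₀ : Sol c B A ψ₀) (hd₀ : Dsp r ψ₀ ≤ 0)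
    (h₁ : Sol c B A ψ₁) (hd₁ : 0 ≤ Dsp r ψ₁) : (B, A) ∈ Lk c r := by
  intro ψ h
  obtain ⟨C, hC⟩ := upper_bound h₀ hd₀ h
  obtain ⟨C', hC'⟩ := lower_bound h₁ hd₁ h
  have t1 : Tendsto (fun t : ℝ => (r : ℝ) + C / t) atTop (𝓝 (r : ℝ)) := by
    simpa using (tendsto_const_nhds (x := (r : ℝ))).add
      (tendsto_id.const_div_atTop C)
  have t2 : Tendsto (fun t : ℝ => (r : ℝ) - C' / t) atTop (𝓝 (r : ℝ)) := by
    simpa using (tendsto_const_nhds (x := (r : ℝ))).sub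
      (tendsto_id.const_div_atTop C')
  refine tendsto_of_tendsto_of_tendsto_of_le_of_le' t2 t1 ?_ ?_
  · filter_upwards [eventually_gt_atTop 0] with t ht
    have := hC' t ht.le
    rw [le_div_iff₀ ht, sub_mul, div_mul_cancel₀ _ ht.ne']
    linarith
  · filter_upwards [eventually_gt_atTop 0] with t ht
    have := hC t ht.le
    rw [div_le_iff₀ ht, add_mul, div_mul_cancel₀ _ ht.ne']
    linarith

lemma tendsto_nat_of_tendsto {ψ : ℝ → ℝ} {a : ℝ}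
    (h : Tendsto (fun t => ψ t / t) atTop (𝓝 a)) :
    Tendsto (fun n : ℕ => (ψ (n * (2 * π)) - ψ 0) / (n * (2 * π))) atTop (𝓝 a) := by
  have hπ : (0 : ℝ) < 2 * π := by positivity
  have h1 : Tendsto (fun n : ℕ => (n : ℝ) * (2 * π)) atTop atTop :=
    tendsto_natCast_atTop_atTop.atTop_mul_const hπ
  have h2 := (h.comp h1).sub (h1.const_div_atTop (ψ 0))
  simpa [sub_div, Function.comp_def] using h2

lemma Sol.shift_nat {c B A : ℝ} {ψ : ℝ → ℝ} (h : Sol c B A ψ) (n : ℕ) :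
    Sol c B A (fun t => ψ (t + n * (2 * π))) := by
  intro t
  have h1 := ((h (t + n * (2 * π))).comp_add_const t (n * (2 * π)))
  simpa [Real.cos_add_nat_mul_two_pi] using h1

lemma not_mem_of_pos {c B A η : ℝ} {r : ℤ} (hη : 0 < η)
    (h : ∀ ψ, Sol c B A ψ → η ≤ Dsp r ψ) : (B, A) ∉ Lk c r := by
  intro hm
  have hπ : (0 : ℝ) < 2 * π := by positivity
  obtain ⟨ψ, hψ, -⟩ := exists_sol c B A 0
  have key : ∀ n : ℕ, n * (r * (2 * π) + η) ≤ ψ (n * (2 * π)) - ψ 0 := by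
    intro n
    induction n with
    | zero => simp
    | succ n ih =>
      have := h _ (hψ.shift_nat n)
      unfold Dsp at this
      simp only [zero_add] at this
      have e : ((n + 1 : ℕ) : ℝ) * (2 * π) = 2 * π + n * (2 * π) := by push_cast; ring
      rw [e]; push_cast; linarith
  have h1 := tendsto_nat_of_tendsto (hm ψ hψ)
  have h2 : (r : ℝ) + η / (2 * π) ≤ r := by
    refine ge_of_tendsto h1 ?_
    filter_upwards [eventually_gt_atTop 0] with n hn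
    have hn' : (0 : ℝ) < n := by exact_mod_cast hn
    rw [le_div_iff₀ (by positivity)]
    have e : ((r : ℝ) + η / (2 * π)) * (n * (2 * π)) = n * (r * (2 * π) + η) := by
      field_simp
    rw [e]; exact key n
  have : 0 < η / (2 * π) := by positivity
  linarith

lemma not_mem_of_neg {c B A η : ℝ} {r : ℤ} (hη : 0 < η)
    (h : ∀ ψ, Sol c B A ψ → Dsp r ψ ≤ -η) : (B, A) ∉ Lk c r := by
  intro hm
  have hπ : (0 : ℝ) < 2 * π := by positivity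
  obtain ⟨ψ, hψ, -⟩ := exists_sol c B A 0
  have key : ∀ n : ℕ, ψ (n * (2 * π)) - ψ 0 ≤ n * (r * (2 * π) - η) := by
    intro n
    induction n with
    | zero => simp
    | succ n ih =>
      have := h _ (hψ.shift_nat n)
      unfold Dsp at this
      simp only [zero_add] at this
      have e : ((n + 1 : ℕ) : ℝ) * (2 * π) = 2 * π + n * (2 * π) := by push_cast; ring
      rw [e]; push_cast; linarith
  have h1 := tendsto_nat_of_tendsto (hm ψ hψ)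
  have h2 : (r : ℝ) ≤ r - η / (2 * π) := by
    refine le_of_tendsto h1 ?_
    filter_upwards [eventually_gt_atTop 0] with n hn
    have hn' : (0 : ℝ) < n := by exact_mod_cast hn
    rw [div_le_iff₀ (by positivity)]
    have e : ((r : ℝ) - η / (2 * π)) * (n * (2 * π)) = n * (r * (2 * π) - η) := by
      field_simp
    rw [e]; exact key n
  have : 0 < η / (2 * π) := by positivity
  linarith

lemma Dsp_dist {c B A B' A' : ℝ} (hc : 0 < c) (r : ℤ) {ψ χ : ℝ → ℝ} (h : Sol c B A ψ)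
    (h' : Sol c B' A' χ) (e : ψ 0 = χ 0) :
    |Dsp r ψ - Dsp r χ| ≤ exp (c * (2 * π)) * (|B - B'| + |A - A'|) := by
  have := h.dist_le hc h'
  rw [e, sub_self, abs_zero, zero_add] at this
  have e' : Dsp r ψ - Dsp r χ = ψ (2 * π) - χ (2 * π) := by unfold Dsp; rw [e]; ring
  rwa [e']

/-- The displacement attains its extrema among solutions. -/
lemma exists_extrema {c : ℝ} (hc : 0 < c) (B A : ℝ) (r : ℤ) :
    (∃ ψ₀, Sol c B A ψ₀ ∧ ∀ ψ, Sol c B A ψ → Dsp r ψ₀ ≤ Dsp r ψ) ∧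
    (∃ ψ₀, Sol c B A ψ₀ ∧ ∀ ψ, Sol c B A ψ → Dsp r ψ ≤ Dsp r ψ₀) := by
  have hπ : (0 : ℝ) < 2 * π := by positivity
  choose σ hσ hσ0 using exists_sol c B A
  have hF : Continuous fun y => σ y (2 * π) := by
    refine (LipschitzWith.of_dist_le_mul (K := Real.nnabs (exp (c * (2 * π))))
      fun y z => ?_).continuous
    have := (hσ y).dist_le hc (hσ z)
    rw [hσ0, hσ0] at this
    simpa [Real.dist_eq, abs_of_pos (exp_pos _)] using this
  have hD : Continuous fun y => Dsp r (σ y) := by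
    unfold Dsp
    simp only [hσ0]
    fun_prop
  have red : ∀ ψ, Sol c B A ψ → ∃ y ∈ Icc 0 (2 * π), Dsp r ψ = Dsp r (σ y) := by
    intro ψ hψ
    set k := ⌊ψ 0 / (2 * π)⌋ with hk
    have h1 : (k : ℝ) ≤ ψ 0 / (2 * π) := Int.floor_le _
    have h2 : ψ 0 / (2 * π) < k + 1 := Int.lt_floor_add_one _
    rw [le_div_iff₀ hπ] at h1
    rw [div_lt_iff₀ hπ] at h2
    refine ⟨ψ 0 - k * (2 * π), ⟨by linarith, by linarith⟩, ?_⟩
    have := hψ.unique ((hσ (ψ 0 - k * (2 * π))).add_int k) (t₀ := 0) (by simp [hσ0])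
    unfold Dsp
    rw [hσ0]
    have h3 := congrFun this (2 * π)
    linarith
  obtain ⟨y₀, -, hy₀⟩ := (isCompact_Icc (a := (0 : ℝ)) (b := 2 * π)).exists_isMinOn
    ⟨0, le_rfl, hπ.le⟩ hD.continuousOn
  obtain ⟨y₁, -, hy₁⟩ := (isCompact_Icc (a := (0 : ℝ)) (b := 2 * π)).exists_isMaxOn
    ⟨0, le_rfl, hπ.le⟩ hD.continuousOn
  refine ⟨⟨σ y₀, hσ _, fun ψ hψ => ?_⟩, ⟨σ y₁, hσ _, fun ψ hψ => ?_⟩⟩
  · obtain ⟨y, hy, e⟩ := red ψ hψ
    rw [e]; exact hy₀ hy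
  · obtain ⟨y, hy, e⟩ := red ψ hψ
    rw [e]; exact hy₁ hy

lemma near_ball {c : ℝ} (B A η : ℝ) (hη : 0 < η) :
    ∀ᶠ p : ℝ × ℝ in 𝓝 (B, A), exp (c * (2 * π)) * (|B - p.1| + |A - p.2|) < η := by
  have hcont : Continuous fun p : ℝ × ℝ => exp (c * (2 * π)) * (|B - p.1| + |A - p.2|) := by
    fun_prop
  have := hcont.continuousAt (x := (B, A))
  exact this.eventually_lt continuousAt_const (by simpa using hη)

lemma not_mem_of_pos' {c B A : ℝ} (hc : 0 < c) {r : ℤ}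
    (h : ∀ ψ, Sol c B A ψ → 0 < Dsp r ψ) : ∀ᶠ p in 𝓝 (B, A), p ∉ Lk c r := by
  obtain ⟨⟨ψ₀, h₀, hmin⟩, -⟩ := exists_extrema hc B A r
  have hη := h ψ₀ h₀
  filter_upwards [near_ball (c := c) B A (Dsp r ψ₀ / 2) (by linarith)] with p hp
  refine not_mem_of_pos (η := Dsp r ψ₀ / 2) (by linarith) fun χ hχ => ?_
  obtain ⟨ψ, hψ, e⟩ := exists_sol c B A (χ 0)
  have h1 := (abs_le.1 (Dsp_dist hc r hψ hχ e)).2
  have h2 := hmin ψ hψ
  linarith

lemma not_mem_of_neg' {c B A : ℝ} (hc : 0 < c) {r : ℤ}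
    (h : ∀ ψ, Sol c B A ψ → Dsp r ψ < 0) : ∀ᶠ p in 𝓝 (B, A), p ∉ Lk c r := by
  obtain ⟨-, ⟨ψ₀, h₀, hmax⟩⟩ := exists_extrema hc B A r
  have hη := h ψ₀ h₀
  filter_upwards [near_ball (c := c) B A (-Dsp r ψ₀ / 2) (by linarith)] with p hp
  refine not_mem_of_neg (η := -Dsp r ψ₀ / 2) (by linarith) fun χ hχ => ?_
  obtain ⟨ψ, hψ, e⟩ := exists_sol c B A (χ 0)
  have h1 := (abs_le.1 (Dsp_dist hc r hψ hχ e)).1
  have h2 := hmax ψ hψ
  linarith

lemma Dsp_lt {c B A B' : ℝ} (hc : 0 < c) (r : ℤ) {ψ χ : ℝ → ℝ} (h : Sol c B A ψ)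
    (h' : Sol c B' A χ) (hB : B < B') (e : ψ 0 = χ 0) : Dsp r ψ < Dsp r χ := by
  have := h.lt_of_lt hc h' hB e
  unfold Dsp; rw [e]; linarith

lemma not_mem_right {c B A B' : ℝ} (hc : 0 < c) {r : ℤ}
    (h : ∀ ψ, Sol c B A ψ → 0 ≤ Dsp r ψ) (hB : B < B') : (B', A) ∉ Lk c r :=
  (not_mem_of_pos' hc (r := r) (B := B') (A := A) fun χ hχ => by
    obtain ⟨ψ, hψ, e⟩ := exists_sol c B A (χ 0)
    exact (h ψ hψ).trans_lt (Dsp_lt hc r hψ hχ hB e)).self_of_nhds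

lemma not_mem_left {c B A B' : ℝ} (hc : 0 < c) {r : ℤ}
    (h : ∀ ψ, Sol c B A ψ → Dsp r ψ ≤ 0) (hB : B' < B) : (B', A) ∉ Lk c r :=
  (not_mem_of_neg' hc (r := r) (B := B') (A := A) fun χ hχ => by
    obtain ⟨ψ, hψ, e⟩ := exists_sol c B A (χ 0)
    exact (Dsp_lt hc r hχ hψ hB e.symm).trans_le (h ψ hψ)).self_of_nhds

/-- Boundary point whose horizontal slice is not a single point. -/
def Simple (c : ℝ) (r : ℤ) (B A : ℝ) : Prop :=
  (B, A) ∈ frontier (Lk c r) ∧ ¬ ({q : ℝ × ℝ | q ∈ Lk c r ∧ q.2 = A} = {(B, A)})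

/-- The displacement is semidefinite, has a zero and is not identically zero. -/
def Parab (c : ℝ) (r : ℤ) (B A : ℝ) : Prop :=
  (∃ ψ₀, Sol c B A ψ₀ ∧ Dsp r ψ₀ = 0) ∧ (∃ ψ₁, Sol c B A ψ₁ ∧ Dsp r ψ₁ ≠ 0) ∧
    ((∀ ψ, Sol c B A ψ → 0 ≤ Dsp r ψ) ∨ (∀ ψ, Sol c B A ψ → Dsp r ψ ≤ 0))

lemma Simple.parab {c B A : ℝ} (hc : 0 < c) {r : ℤ} (h : Simple c r B A) : Parab c r B A := by
  obtain ⟨⟨hcl, hint⟩, hsl⟩ := h
  have h1 : ∃ ψ, Sol c B A ψ ∧ Dsp r ψ ≤ 0 := by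
    by_contra hn
    push Not at hn
    have := not_mem_of_pos' hc hn
    exact (mem_closure_iff_frequently.1 hcl) this
  have h2 : ∃ ψ, Sol c B A ψ ∧ 0 ≤ Dsp r ψ := by
    by_contra hn
    push Not at hn
    have := not_mem_of_neg' hc hn
    exact (mem_closure_iff_frequently.1 hcl) this
  have h3 : (∀ ψ, Sol c B A ψ → 0 ≤ Dsp r ψ) ∨ (∀ ψ, Sol c B A ψ → Dsp r ψ ≤ 0) := by
    by_contra hn
    push Not at hn
    obtain ⟨⟨ψ₀, h₀, d₀⟩, ⟨ψ₁, h₁, d₁⟩⟩ := hn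
    apply hint
    rw [mem_interior_iff_mem_nhds]
    filter_upwards [near_ball (c := c) B A (-Dsp r ψ₀) (by linarith),
      near_ball (c := c) B A (Dsp r ψ₁) d₁] with p hp hp'
    obtain ⟨χ₀, hχ₀, e₀⟩ := exists_sol c p.1 p.2 (ψ₀ 0)
    obtain ⟨χ₁, hχ₁, e₁⟩ := exists_sol c p.1 p.2 (ψ₁ 0)
    have a₀ := (abs_le.1 (Dsp_dist hc r h₀ hχ₀ e₀.symm)).1
    have a₁ := (abs_le.1 (Dsp_dist hc r h₁ hχ₁ e₁.symm)).2
    exact mem_Lk hχ₀ (by linarith) hχ₁ (by linarith)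
  obtain ⟨ψ₀, h₀, d₀⟩ := h1
  obtain ⟨ψ₁, h₁, d₁⟩ := h2
  refine ⟨?_, ?_, h3⟩
  · rcases h3 with h3 | h3
    · exact ⟨ψ₀, h₀, le_antisymm d₀ (h3 _ h₀)⟩
    · exact ⟨ψ₁, h₁, le_antisymm (h3 _ h₁) d₁⟩
  · by_contra hn
    push Not at hn
    apply hsl
    ext ⟨B', A'⟩
    simp only [mem_ofPred_eq, mem_singleton_iff, Prod.mk.injEq]
    constructor
    · rintro ⟨hm, rfl⟩
      refine ⟨?_, rfl⟩
      rcases lt_trichotomy B' B with hB | hB | hB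
      · exact absurd hm (not_mem_left hc (fun ψ hψ => (hn ψ hψ).le) hB)
      · exact hB
      · exact absurd hm (not_mem_right hc (fun ψ hψ => (hn ψ hψ).ge) hB)
    · rintro ⟨rfl, rfl⟩
      exact ⟨mem_Lk h₀ d₀ h₁ d₁, rfl⟩

lemma Parab.simple {c B A : ℝ} (hc : 0 < c) {r : ℤ} (h : Parab c r B A) : Simple c r B A := by
  obtain ⟨⟨ψ₀, h₀, d₀⟩, ⟨ψ₁, h₁, d₁⟩, h3⟩ := h
  have hm : (B, A) ∈ Lk c r := mem_Lk h₀ d₀.le h₀ d₀.ge
  have hline : Tendsto (fun b : ℝ => (b, A)) (𝓝 B) (𝓝 (B, A)) :=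
    (by fun_prop : Continuous fun b : ℝ => (b, A)).tendsto B
  refine ⟨⟨subset_closure hm, fun hint => ?_⟩, fun hsl => ?_⟩
  · rw [mem_interior_iff_mem_nhds] at hint
    have hev : ∀ᶠ b in 𝓝 B, (b, A) ∈ Lk c r := hline.eventually hint
    rcases h3 with h3 | h3
    · obtain ⟨b, hb, hb'⟩ := ((hev.filter_mono (nhdsWithin_le_nhds (s := Ioi B))).and
        self_mem_nhdsWithin).exists
      exact not_mem_right hc h3 hb' hb
    · obtain ⟨b, hb, hb'⟩ := ((hev.filter_mono (nhdsWithin_le_nhds (s := Iio B))).and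
        self_mem_nhdsWithin).exists
      exact not_mem_left hc h3 hb' hb
  · have hone : ∀ b, (b, A) ∈ Lk c r → b = B := by
      intro b hb
      have : (b, A) ∈ ({(B, A)} : Set (ℝ × ℝ)) := by rw [← hsl]; exact ⟨hb, rfl⟩
      simpa using this
    have hev := hline.eventually (near_ball (c := c) B A |Dsp r ψ₁| (abs_pos.2 d₁))
    rcases h3 with h3 | h3
    · obtain ⟨b, hb, hb'⟩ := ((hev.filter_mono (nhdsWithin_le_nhds (s := Iio B))).and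
        self_mem_nhdsWithin).exists
      have hb'' : b < B := hb'
      obtain ⟨χ₀, hχ₀, e₀⟩ := exists_sol c b A (ψ₀ 0)
      obtain ⟨χ₁, hχ₁, e₁⟩ := exists_sol c b A (ψ₁ 0)
      have a₀ := Dsp_lt hc r hχ₀ h₀ hb'' e₀
      have a₁ := (abs_le.1 (Dsp_dist hc r h₁ hχ₁ e₁.symm)).2
      rw [abs_of_nonneg (h3 _ h₁)] at hb
      exact hb''.ne (hone b (mem_Lk hχ₀ (by linarith) hχ₁ (by simp only at hb; linarith)))
    · obtain ⟨b, hb, hb'⟩ := ((hev.filter_mono (nhdsWithin_le_nhds (s := Ioi B))).and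
        self_mem_nhdsWithin).exists
      have hb'' : B < b := hb'
      obtain ⟨χ₀, hχ₀, e₀⟩ := exists_sol c b A (ψ₀ 0)
      obtain ⟨χ₁, hχ₁, e₁⟩ := exists_sol c b A (ψ₁ 0)
      have a₀ := Dsp_lt hc r h₀ hχ₀ hb'' e₀.symm
      have a₁ := (abs_le.1 (Dsp_dist hc r h₁ hχ₁ e₁.symm)).1
      rw [abs_of_nonpos (h3 _ h₁)] at hb
      exact hb''.ne' (hone b (mem_Lk hχ₁ (by simp only at hb; linarith) hχ₀ (by linarith)))

end Pool.Agent.P.MP_a6130f_an
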