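import Pool.Agent.P.MP_a6130f_an.Fourier
import Pool.Agent.P.MP_a6130f_an.Moebius

set_option autoImplicit false

/-! No constriction when `2 mu <= l + 2 x`. -/

namespace Pool.Agent.P.MP_a6130f_an

open Set Filter Topology Complex
open scoped Real ComplexConjugate

lemma convex_seq_zero {s : ℕ → ℝ} {M : ℝ} (h0 : s 0 = 0) (hn : ∀ n, 0 ≤ s n) (hM : ∀ n, s n ≤ M)
    (hc : ∀ n, 2 * s (n + 1) ≤ s n + s (n + 2)) (n : ℕ) : s n = 0 := by
  have hd : ∀ m, s (m + 1) ≤ s m := by
    intro m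
    by_contra hlt
    push Not at hlt
    have h1 : ∀ j, s (m + 1) - s m ≤ s (m + j + 1) - s (m + j) := by
      intro j
      induction j with
      | zero => simp
      | succ j ih => have := hc (m + j); rw [← add_assoc]; linarith
    have h2 : ∀ j : ℕ, s m + j * (s (m + 1) - s m) ≤ s (m + j) := by
      intro j
      induction j with
      | zero => simp
      | succ j ih => have := h1 j; rw [← add_assoc]; push_cast; linarith
    obtain ⟨j, hj⟩ := exists_nat_gt ((M - s m) / (s (m + 1) - s m))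
    rw [div_lt_iff₀ (by linarith)] at hj
    have := h2 j
    have := hM (m + j)
    linarith
  refine le_antisymm ?_ (hn n)
  induction n with
  | zero => exact h0.le
  | succ n ih => exact (hd n).trans ih

lemma lin_unique {x μ l : ℝ} (hx : 0 < x) (hμ : 0 < μ) (h2 : 2 * μ ≤ l + 2 * x) {v U : ℝ → ℂ}
    (hv : ∀ t, HasDerivAt v (x * U t) t)
    (hU : ∀ t, HasDerivAt U (x * v t + (-I * l) * U t + (-I * μ) * (ez 1 t * U t)
      + (-I * μ) * (ez (-1) t * U t)) t)
    (pv : v (2 * π) = v 0) (pU : U (2 * π) = U 0) (h : cf U (-1) = 0) : v 0 = 0 ∧ U 0 = 0 := by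
  have cv : Continuous v := continuous_iff_continuousAt.2 fun t => (hv t).continuousAt
  have cU : Continuous U := continuous_iff_continuousAt.2 fun t => (hU t).continuousAt
  have hx' : (x : ℂ) ≠ 0 := by exact_mod_cast hx.ne'
  have hμ' : (μ : ℂ) ≠ 0 := by exact_mod_cast hμ.ne'
  have r1 : ∀ k : ℤ, x * cf U k = k * I * cf v k := fun k => by
    rw [← cf_deriv hv (by fun_prop) pv k, cf_const_mul]
  have r2 : ∀ k : ℤ, x * cf v k + (-I * l) * cf U k + (-I * μ) * cf U (k - 1)
      + (-I * μ) * cf U (k + 1) = k * I * cf U k := fun k => by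
    rw [← cf_deriv hU (by fun_prop) pU k, cf_add (by fun_prop) (by fun_prop),
      cf_add (by fun_prop) (by fun_prop), cf_add (by fun_prop) (by fun_prop),
      cf_const_mul, cf_const_mul, cf_const_mul, cf_const_mul, cf_ez_mul, cf_ez_mul]
    simp
  have r3 : ∀ k : ℤ, ((k : ℂ) ^ 2 + l * k + x ^ 2) * cf U k
      = -(μ * k) * (cf U (k - 1) + cf U (k + 1)) := fun k => by
    have e1 := r1 k
    have e2 := r2 k
    have hI : I * I = -1 := I_mul_I
    linear_combination (x : ℂ) * e1 + (k * I) * e2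
      + ((l * k + k ^ 2) * cf U k + μ * k * (cf U (k - 1) + cf U (k + 1))) * hI
  have U0 : cf U 0 = 0 := by
    have := r1 0
    simpa [hx'] using this
  obtain ⟨M, hM⟩ := cf_bound U
  have pos : ∀ n : ℕ, cf U n = 0 := by
    intro n
    have := convex_seq_zero (s := fun n : ℕ => ‖cf U n‖) (M := M) (by simp [U0])
      (fun _ => norm_nonneg _) (fun n => hM n) (fun n => by
        have e := congrArg norm (r3 ((n + 1 : ℕ) : ℤ))
        have hk : (0 : ℝ) < (n + 1 : ℕ) := by positivity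
        set k : ℝ := ((n + 1 : ℕ) : ℝ) with hk'
        have e1 : ((((n + 1 : ℕ) : ℤ) : ℂ) ^ 2 + l * (((n + 1 : ℕ) : ℤ) : ℂ) + x ^ 2)
            = ((k ^ 2 + l * k + x ^ 2 : ℝ) : ℂ) := by rw [hk']; push_cast; ring
        have e2 : -((μ : ℂ) * (((n + 1 : ℕ) : ℤ) : ℂ)) = ((-(μ * k) : ℝ) : ℂ) := by
          rw [hk']; push_cast; ring
        have e3 : ((n + 1 : ℕ) : ℤ) - 1 = n := by push_cast; ring
        have e4 : ((n + 1 : ℕ) : ℤ) + 1 = ((n + 2 : ℕ) : ℤ) := by push_cast; ring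
        rw [e1, e2, e3, e4, norm_mul, norm_mul, Complex.norm_real, Complex.norm_real,
          Real.norm_eq_abs, Real.norm_eq_abs, abs_neg, abs_of_pos (mul_pos hμ hk)] at e
        have h3 : 2 * (μ * k) ≤ k ^ 2 + l * k + x ^ 2 := by nlinarith [sq_nonneg (k - x)]
        have h4 := le_abs_self (k ^ 2 + l * k + x ^ 2)
        have h5 := norm_add_le (cf U n) (cf U ((n + 2 : ℕ) : ℤ))
        have h6 := norm_nonneg (cf U ((n + 1 : ℕ) : ℤ))
        have h7 : (μ * k) * (2 * ‖cf U ((n + 1 : ℕ) : ℤ)‖)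
            ≤ (μ * k) * (‖cf U n‖ + ‖cf U ((n + 2 : ℕ) : ℤ)‖) := by
          have := mul_pos hμ hk
          nlinarith
        exact le_of_mul_le_mul_left h7 (mul_pos hμ hk)) n
    simpa using this
  have neg : ∀ n : ℕ, cf U (-(n : ℤ)) = 0 ∧ cf U (-(n : ℤ) - 1) = 0 := by
    intro n
    induction n with
    | zero => simpa [U0] using h
    | succ n ih =>
      have e1 : -((n + 1 : ℕ) : ℤ) = -(n : ℤ) - 1 := by push_cast; ring
      rw [e1]
      refine ⟨ih.2, ?_⟩
      have := r3 (-(n : ℤ) - 1)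
      rw [ih.2, sub_add_cancel, ih.1, mul_zero, add_zero] at this
      have hk : ((-(n : ℤ) - 1 : ℤ) : ℂ) ≠ 0 := by
        have : (-(n : ℤ) - 1 : ℤ) ≠ 0 := by omega
        exact_mod_cast this
      exact (mul_eq_zero.1 this.symm).resolve_left (neg_ne_zero.2 (mul_ne_zero hμ' hk))
  have all : ∀ k : ℤ, cf U k = 0 := by
    intro k
    rcases Int.eq_nat_or_neg k with ⟨n, rfl | rfl⟩
    · exact pos n
    · exact (neg n).1
  refine ⟨cf_unique cv pv fun k => ?_, cf_unique cU pU all⟩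
  have := r2 k
  simpa [all, hx'] using this

lemma ez_one_add (t : ℝ) : ez 1 t + ez (-1) t = 2 * Real.cos t := by
  unfold ez
  rw [ofReal_cos, Complex.cos]
  simp
  ring

/-- If `2 mu <= l + 2 x`, a periodic solution with multiplier one has nontrivial monodromy. -/
lemma If_ne_zero {c B A : ℝ} (hc : 0 < c) (hA : 0 < A) {r : ℤ} (hB : c * B = r)
    (h2 : c * A ≤ r + c) {ψ : ℝ → ℝ} (h : Sol c B A ψ) (d : Dsp r ψ = 0)
    (hP : Pf c ψ (2 * π) = 0) : If c ψ (2 * π) ≠ 0 := by
  intro hI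
  have cψ := h.continuous
  set x : ℝ := c / 2 with hx
  set μ : ℝ := c * A / 2 with hμ
  have hψ : ∀ t, HasDerivAt (fun t => (ψ t : ℂ))
      ((-(2 * x) * Real.sin (ψ t) + r + 2 * μ * Real.cos t : ℝ) : ℂ) t := fun t => by
    refine ((h t).congr_deriv ?_).ofReal_comp
    rw [hx, hμ, ← hB]; ring
  have hPc : ∀ t, HasDerivAt (fun t => (Pf c ψ t : ℂ)) ((2 * x * Real.cos (ψ t) : ℝ) : ℂ) t :=
    fun t => ((hasDerivAt_Pf c cψ t).congr_deriv (by rw [hx]; ring)).ofReal_comp
  have hIc : ∀ t, HasDerivAt (fun t => (If c ψ t : ℂ))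
      ((2 * x * (Real.exp (-Pf c ψ t) * Real.sin (ψ t)) : ℝ) : ℂ) t :=
    fun t => ((hasDerivAt_If c cψ t).congr_deriv (by rw [hx]; ring)).ofReal_comp
  have hid : ∀ t : ℝ, HasDerivAt (fun t : ℝ => (t : ℂ)) 1 t :=
    fun t => Complex.ofRealCLM.hasDerivAt
  have hsin : ∀ t : ℝ, HasDerivAt (fun t : ℝ => (Real.sin t : ℂ)) (Real.cos t : ℂ) t :=
    fun t => (Real.hasDerivAt_sin t).ofReal_comp
  set v : ℝ → ℂ := fun t =>
    cexp (Pf c ψ t / 2 + I / 2 * (ψ t - r * t - 2 * μ * Real.sin t)) with hvdef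
  set E : ℝ → ℂ := fun t => cexp (-I * ψ t) with hE
  have hEe : ∀ t, E t = Real.cos (ψ t) - I * Real.sin (ψ t) := fun t => by
    rw [hE]; simp only
    rw [show -I * (ψ t : ℂ) = (-ψ t : ℂ) * I by ring, exp_mul_I]
    simp; ring
  have hcs : ∀ t, (Real.cos (ψ t) : ℂ) ^ 2 + (Real.sin (ψ t) : ℂ) ^ 2 = 1 := fun t => by
    exact_mod_cast Real.cos_sq_add_sin_sq (ψ t)
  have hI2 : I * I = -1 := I_mul_I
  have hv : ∀ t, HasDerivAt v (x * (E t * v t)) t := fun t => by
    have := (((hPc t).div_const 2).add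
      ((((hψ t).sub ((hid t).const_mul (r : ℂ))).sub
        ((hsin t).const_mul (2 * (μ : ℂ)))).const_mul (I / 2))).cexp
    refine this.congr_deriv ?_
    rw [hEe]
    simp only [hvdef, Pi.add_apply, Pi.sub_apply]
    push_cast
    ring
  have hEd : ∀ t, HasDerivAt E
      (E t * (-I * (-(2 * x) * Real.sin (ψ t) + r + 2 * μ * Real.cos t))) t := fun t => by
    refine ((hψ t).const_mul (-I)).cexp.congr_deriv ?_
    simp only [hE]
    push_cast
    ring
  set U : ℝ → ℂ := fun t => E t * v t with hUdef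
  have hU : ∀ t, HasDerivAt U (x * v t + (-I * r) * U t + (-I * μ) * (ez 1 t * U t)
      + (-I * μ) * (ez (-1) t * U t)) t := fun t => by
    refine ((hEd t).mul (hv t)).congr_deriv ?_
    have e1 := ez_one_add t
    have e2 := hcs t
    simp only [hUdef]
    rw [hEe]
    linear_combination (I * μ * (Real.cos (ψ t) - I * Real.sin (ψ t)) * v t) * e1
      + (x * v t) * e2 + (-(x * v t) * (Real.sin (ψ t) : ℂ) ^ 2) * hI2
  set Q : ℝ → ℂ := fun t => cexp (-Pf c ψ t) with hQ
  have hQd : ∀ t, HasDerivAt Q (-(2 * x * Real.cos (ψ t)) * Q t) t := fun t => by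
    refine (hPc t).neg.cexp.congr_deriv ?_
    simp only [hQ, Pi.neg_apply]
    push_cast
    ring
  have hIc' : ∀ t, HasDerivAt (fun t => (If c ψ t : ℂ))
      (2 * x * (Q t * Real.sin (ψ t))) t := fun t => (hIc t).congr_deriv (by
    simp only [hQ]; push_cast; ring)
  set v₂ : ℝ → ℂ := fun t => (-Q t - I * If c ψ t) * v t with hv₂
  set U₂ : ℝ → ℂ := fun t => (Q t - I * If c ψ t) * U t with hU₂
  have hv₂d : ∀ t, HasDerivAt v₂ (x * U₂ t) t := fun t => by
    refine (((hQd t).neg.sub ((hIc' t).const_mul I)).mul (hv t)).congr_deriv ?_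
    simp only [hU₂, hUdef, Pi.neg_apply, Pi.sub_apply]
    rw [hEe]
    ring
  have hU₂d : ∀ t, HasDerivAt U₂ (x * v₂ t + (-I * r) * U₂ t + (-I * μ) * (ez 1 t * U₂ t)
      + (-I * μ) * (ez (-1) t * U₂ t)) t := fun t => by
    refine (((hQd t).sub ((hIc' t).const_mul I)).mul (hU t)).congr_deriv ?_
    have e2 := hcs t
    simp only [hU₂, hv₂, hUdef, Pi.sub_apply]
    rw [hEe]
    linear_combination (-2 * x * Q t * v t) * e2
      + (2 * x * Q t * v t * (Real.sin (ψ t) : ℂ) ^ 2) * hI2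
  have hψp : ψ (2 * π) = ψ 0 + r * (2 * π) := by unfold Dsp at d; linarith
  have pv : v (2 * π) = v 0 := by
    simp only [hvdef, hP, hψp, Pf_zero, Real.sin_two_pi, Real.sin_zero]
    congr 1
    push_cast
    ring
  have pE : E (2 * π) = E 0 := by
    rw [hEe, hEe, hψp, Real.cos_add_int_mul_two_pi, Real.sin_add_int_mul_two_pi]
  have pU : U (2 * π) = U 0 := by simp only [hUdef, pv, pE]
  have pv₂ : v₂ (2 * π) = v₂ 0 := by simp only [hv₂, hQ, pv, hP, hI, Pf_zero, If_zero]
  have pU₂ : U₂ (2 * π) = U₂ 0 := by simp only [hU₂, hQ, pU, hP, hI, Pf_zero, If_zero]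
  have hx0 : 0 < x := by rw [hx]; positivity
  have hμ0 : 0 < μ := by rw [hμ]; positivity
  have h2' : 2 * μ ≤ r + 2 * x := by rw [hx, hμ]; linarith
  have v0 : v 0 ≠ 0 := exp_ne_zero _
  have U0 : U 0 ≠ 0 := mul_ne_zero (exp_ne_zero _) v0
  have cU : Continuous U := continuous_iff_continuousAt.2 fun t => (hU t).continuousAt
  have cU₂ : Continuous U₂ := continuous_iff_continuousAt.2 fun t => (hU₂d t).continuousAt
  by_cases h1 : cf U (-1) = 0
  · exact v0 (lin_unique (l := r) hx0 hμ0 h2' hv (by simpa using hU) pv pU h1).1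
  · set α := cf U₂ (-1)
    set β := -cf U (-1) with hβ
    have := lin_unique (l := r) (v := fun t => α * v t + β * v₂ t)
      (U := fun t => α * U t + β * U₂ t) hx0 hμ0 h2'
      (fun t => (((hv t).const_mul α).add ((hv₂d t).const_mul β)).congr_deriv (by
        simp only [hUdef]; ring))
      (fun t => (((hU t).const_mul α).add ((hU₂d t).const_mul β)).congr_deriv (by
        push_cast; ring))
      (by simp only [pv, pv₂]) (by simp only [pU, pU₂])
      (by rw [cf_add (by fun_prop) (by fun_prop), cf_const_mul, cf_const_mul, hβ]; ring)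
    obtain ⟨e1, e2⟩ := this
    simp only [hv₂, hU₂, hQ, Pf_zero, If_zero] at e1 e2
    simp at e1 e2
    have e3 : (α - β) * v 0 = 0 := by linear_combination e1
    have e4 : (α + β) * U 0 = 0 := by linear_combination e2
    have e5 := (mul_eq_zero.1 e3).resolve_right v0
    have e6 := (mul_eq_zero.1 e4).resolve_right U0
    apply h1
    have : β = 0 := by linear_combination (e6 - e5) / 2
    rw [hβ] at this
    exact neg_eq_zero.1 this

end Pool.Agent.P.MP_a6130f_an
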