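import Pool.Agent.P.MP_a6130f_an.Perron
import Pool.Agent.P.MP_a6130f_an.NonId

set_option autoImplicit false

/-! Existence and uniqueness of the simple intersection. -/

namespace Pool.Agent.P.MP_a6130f_an

open Set Filter Topology Polynomial
open scoped Real

lemma main_pos {c B : ℝ} (hc : 0 < c) (n : ℕ) (hB : c * B = ((n + 1 : ℕ) : ℤ)) :
    ∃! A : ℝ, 0 < A ∧ Simple c ((n + 1 : ℕ) : ℤ) B A := by
  have hx : 0 < c / 2 := by positivity
  obtain ⟨μ, a, h⟩ := exists_nor n hx.le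
  have hμ : 0 < μ := lt_of_lt_of_le hx h.mu_mem.1
  have eμ : c * (2 * μ / c) / 2 = μ := by field_simp
  refine ⟨2 * μ / c, ⟨by positivity, ?_⟩, ?_⟩
  · obtain ⟨ψ, hψ, h0, d⟩ := sol_of_heun (A := 2 * μ / c) (σ := 1) hB (Or.inl rfl) h.ne_zero
      (by rw [eμ, one_mul]; exact h.1.heun)
    rw [(nz_eq_zero_iff h.ne_zero).2 fun z hz => h.no_zero hx.le hz.le] at d
    simp only [Nat.cast_zero, mul_zero, sub_zero] at d
    have hP := Pf_eq_zero_of_symm hψ d h0
    have h2 := two_mu_le hμ hx.le h.1.heun h.pos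
    refine (parab_of_sol hψ d hP (If_ne_zero hc (by positivity) hB ?_ hψ d hP)).simple hc
    have : c * (2 * μ / c) = 2 * μ := by field_simp
    rw [this]
    push_cast
    linarith
  · rintro A ⟨hA, hs⟩
    obtain ⟨ψ, hψ, d, hP, hI⟩ := (hs.parab hc).exists_sol
    obtain ⟨σ, e, hσ, he, j, hj, hej⟩ := exists_coef hB hψ d hP hI
    have hp : pol n e ≠ 0 := fun h0 => hej (by rw [← coeff_pol n e hj, h0, coeff_zero])
    obtain ⟨χ, hχ, -, d'⟩ := sol_of_heun hB hσ hp he.heun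
    have l1 := mem_Lk hψ d.le hψ d.ge ψ hψ
    have l2 := mem_Lk hχ d'.le hχ d'.ge ψ hψ
    have e1 := tendsto_nhds_unique l1 l2
    have e2 : nz (pol n e) = 0 := by
      have : ((n + 1 : ℕ) : ℤ) = ((n + 1 : ℕ) : ℤ) - 2 * (nz (pol n e) : ℤ) := by exact_mod_cast e1
      omega
    have hσ0 : σ * (c / 2) ≠ 0 := by
      rcases hσ with h1 | h1 <;> simp [h1, hc.ne']
    obtain ⟨hy, q, hq, hq'⟩ := normalise (by positivity) hσ0 he.heun fun z hz => by
      rcases hz.eq_or_lt with hz | hz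
      · exact fun h0 => hp (he.heun.eq_zero_of_root hz h0)
      · exact (nz_eq_zero_iff hp).1 e2 z hz
    have hσ1 : σ = 1 := by
      rcases hσ with h1 | h1
      · exact h1
      · rw [h1] at hy; linarith
    rw [hσ1, one_mul] at hq
    have := mu_unique hx.le hq h.1.heun hq' h.pos
    field_simp
    linarith

lemma neg_mem_Lk {c B A : ℝ} {r : ℤ} (h : (B, A) ∈ Lk c r) : (-B, A) ∈ Lk c (-r) := by
  intro ψ hψ
  have hχ : Sol c B A fun t => -ψ (t + π) := fun t =>
    ((hψ (t + π)).comp_add_const t π).neg.congr_deriv (by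
      simp only [Real.sin_neg, Real.cos_add_pi]; ring)
  have h1 := (h _ hχ).comp (tendsto_atTop_add_const_right atTop (-π) tendsto_id)
  have h2 : Tendsto (fun t : ℝ => -1 + π / t) atTop (𝓝 (-1)) := by
    simpa using (tendsto_const_nhds (x := (-1 : ℝ))).add (tendsto_id.const_div_atTop π)
  have h3 := h1.mul h2
  rw [mul_neg_one] at h3
  push_cast
  refine h3.congr' ?_
  filter_upwards [eventually_gt_atTop π] with t ht
  have : t + -π ≠ 0 := by linarith
  have : t ≠ 0 := by linarith [Real.pi_pos]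
  simp only [Function.comp_apply, id, neg_add_cancel_right]
  field_simp
  ring

lemma Simple.neg {c B A : ℝ} {r : ℤ} (h : Simple c r B A) : Simple c (-r) (-B) A := by
  have hiff : ∀ b a : ℝ, (b, a) ∈ Lk c (-r) ↔ (-b, a) ∈ Lk c r := fun b a =>
    ⟨fun h => by simpa using neg_mem_Lk h, fun h => by simpa using neg_mem_Lk h⟩
  let σ : ℝ × ℝ ≃ₜ ℝ × ℝ := (Homeomorph.neg ℝ).prodCongr (Homeomorph.refl ℝ)
  have e : Lk c (-r) = σ ⁻¹' Lk c r := by
    ext ⟨b, a⟩
    exact hiff b a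
  refine ⟨?_, fun hs => h.2 ?_⟩
  · rw [e, ← σ.preimage_frontier]
    simpa [σ] using h.1
  · ext ⟨b, a⟩
    have := Set.ext_iff.1 hs (-b, a)
    simp only [mem_ofPred_eq, mem_singleton_iff, Prod.mk.injEq, hiff, neg_neg, neg_inj] at this ⊢
    exact this

lemma main_all {c B : ℝ} (hc : 0 < c) {r : ℤ} (hr : r ≠ 0) (hB : c * B = r) :
    ∃! A : ℝ, 0 < A ∧ Simple c r B A := by
  rcases lt_or_gt_of_ne hr with h | h
  · obtain ⟨n, hn⟩ : ∃ n : ℕ, -r = ((n + 1 : ℕ) : ℤ) := ⟨(-r - 1).toNat, by omega⟩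
    have := main_pos (B := -B) hc n (by rw [← hn]; push_cast; linarith)
    rw [← hn] at this
    refine (existsUnique_congr fun A => and_congr_right fun _ => ⟨fun h => ?_, fun h => h.neg⟩).1
      this
    simpa using h.neg
  · obtain ⟨n, rfl⟩ : ∃ n : ℕ, r = ((n + 1 : ℕ) : ℤ) := ⟨(r - 1).toNat, by omega⟩
    exact main_pos hc n hB

lemma area_eq {ω : ℝ} (hω : 0 < ω) (r : ℤ) :
    {p : ℝ × ℝ | ∀ φ : ℝ → ℝ,
      (∀ t : ℝ, HasDerivAt φ (-Real.sin (φ t) + p.1 + p.2 * Real.cos (ω * t)) t) →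
      Tendsto (fun t : ℝ => φ t / t) atTop (𝓝 ((r : ℝ) * ω))} = Lk ω⁻¹ r := by
  ext p
  constructor
  · intro h ψ hψ
    have h1 := h (fun t => ψ (ω * t)) fun t =>
      (HasDerivAt.comp t (hψ (ω * t)) ((hasDerivAt_id t).const_mul ω)).congr_deriv (by
        field_simp)
    have h2 := (h1.comp (tendsto_id.const_mul_atTop (inv_pos.2 hω))).mul_const ω⁻¹
    rw [mul_inv_cancel_right₀ hω.ne'] at h2
    refine h2.congr fun t => ?_
    simp only [Function.comp_apply, id, mul_inv_cancel_left₀ hω.ne']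
    field_simp
  · intro h φ hφ
    have h1 := h (fun t => φ (ω⁻¹ * t)) fun t =>
      (HasDerivAt.comp t (hφ (ω⁻¹ * t)) ((hasDerivAt_id t).const_mul ω⁻¹)).congr_deriv (by
        rw [mul_inv_cancel_left₀ hω.ne']; ring)
    have h2 := (h1.comp (tendsto_id.const_mul_atTop hω)).mul_const ω
    refine h2.congr fun t => ?_
    simp only [Function.comp_apply, id, inv_mul_cancel_left₀ hω.ne']
    field_simp

end Pool.Agent.P.MP_a6130f_an
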