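import Pool.Agent.P.MP_a6130f_an.Riccati

set_option autoImplicit false

/-! Existence of the positive polynomial solution, and absence of zeros in the unit disc. -/

namespace Pool.Agent.P.MP_a6130f_an

open Set Filter Topology Polynomial

/-- The recursion; `(rc k).1 = a k` and `(rc (k+1)).2 = d k`. -/
noncomputable def rc (n : ℕ) (x μ : ℝ) : ℕ → ℝ × ℝ
  | 0 => (1, 0)
  | k + 1 =>
    ((μ * (rc n x μ k).1 - (x ^ 2 * (rc n x μ k).1 + (n + 1 - k) * (rc n x μ k).2) / μ) / (k + 1),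
      (x ^ 2 * (rc n x μ k).1 + (n + 1 - k) * (rc n x μ k).2) / μ)

lemma rc_cont (n : ℕ) (x : ℝ) (k : ℕ) : ContinuousOn (fun μ => rc n x μ k) (Ioi 0) := by
  induction k with
  | zero => exact continuousOn_const
  | succ k ih =>
    have h1 : ContinuousOn (fun μ => (rc n x μ k).1) (Ioi 0) := ih.fst
    have h2 : ContinuousOn (fun μ => (rc n x μ k).2) (Ioi 0) := ih.snd
    have h3 : ContinuousOn
        (fun μ => (x ^ 2 * (rc n x μ k).1 + (n + 1 - k) * (rc n x μ k).2) / μ) (Ioi 0) :=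
      ((continuousOn_const.mul h1).add (continuousOn_const.mul h2)).div continuousOn_id
        fun μ hμ => ne_of_gt hμ
    exact (((continuousOn_id.mul h1).sub h3).div_const _).prodMk h3

lemma rc_big (n : ℕ) (x : ℝ) (k : ℕ) (hk : k ≤ n + 1) :
    1 ≤ (rc n x (x ^ 2 + n + 2) k).1 ∧ 0 ≤ (rc n x (x ^ 2 + n + 2) k).2 ∧
      (rc n x (x ^ 2 + n + 2) k).2 ≤ (rc n x (x ^ 2 + n + 2) k).1 := by
  induction k with
  | zero => simp [rc]
  | succ k ih =>
    obtain ⟨h1, h2, h3⟩ := ih (by omega)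
    have hk' : (k : ℝ) ≤ n := by exact_mod_cast (by omega : k ≤ n)
    have hk0 : (0 : ℝ) ≤ k := Nat.cast_nonneg k
    have hx := sq_nonneg x
    set μ : ℝ := x ^ 2 + n + 2 with hμ
    have hμ0 : 0 < μ := by rw [hμ]; linarith
    simp only [rc]
    set a := (rc n x μ k).1
    set d := (rc n x μ k).2
    have e1 : 0 ≤ (x ^ 2 * a + (n + 1 - k) * d) / μ := by
      apply div_nonneg _ hμ0.le
      have : 0 ≤ (n + 1 - k : ℝ) := by linarith
      positivity
    have e2 : (x ^ 2 * a + (n + 1 - k) * d) / μ ≤ a := by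
      rw [div_le_iff₀ hμ0, hμ]
      nlinarith
    have e3 : a ≤ (μ * a - (x ^ 2 * a + (n + 1 - k) * d) / μ) / (k + 1) := by
      rw [le_div_iff₀ (by linarith), hμ]
      rw [hμ] at e2
      nlinarith
    exact ⟨h1.trans e3, e1, e2.trans e3⟩

lemma exists_pos_coef (n : ℕ) {x : ℝ} (hx : 0 < x) :
    ∃ μ e, Coef n μ x e ∧ ∀ j ≤ n, 0 < e j := by
  have hne : (Finset.range (n + 1)).Nonempty := ⟨0, by simp⟩
  set m : ℝ → ℝ := fun μ => (Finset.range (n + 1)).inf' hne fun k => (rc n x μ (k + 1)).1 with hm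
  have hle : x ≤ x ^ 2 + n + 2 := by nlinarith [(Nat.cast_nonneg n : (0 : ℝ) ≤ n)]
  have hcont : ContinuousOn m (Icc x (x ^ 2 + n + 2)) :=
    ContinuousOn.finset_inf'_apply hne fun k _ =>
      (rc_cont n x (k + 1)).fst.mono fun μ hμ => lt_of_lt_of_le hx hμ.1
  have h1 : m x ≤ 0 := by
    refine (Finset.inf'_le _ (Finset.mem_range.2 (Nat.succ_pos n))).trans (le_of_eq ?_)
    simp only [rc]
    field_simp
    simp
  have h2 : 0 ≤ m (x ^ 2 + n + 2) := by
    refine Finset.le_inf' _ _ fun k hk => ?_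
    exact zero_le_one.trans (rc_big n x (k + 1) (Finset.mem_range.1 hk)).1
  obtain ⟨μ, hμ, hm0⟩ := intermediate_value_Icc hle hcont ⟨h1, h2⟩
  have hμ0 : 0 < μ := lt_of_lt_of_le hx hμ.1
  set a : ℕ → ℝ := fun k => (rc n x μ k).1 with ha
  set d : ℕ → ℝ := fun k => (rc n x μ k).2 with hd
  have ra : ∀ k : ℕ, (k + 1 : ℝ) * a (k + 1) = μ * a k - d (k + 1) := fun k => by
    simp only [ha, hd, rc]
    field_simp
  have rd : ∀ k : ℕ, μ * d (k + 1) = x ^ 2 * a k + (n + 1 - k) * d k := fun k => by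
    simp only [ha, hd, rc]
    field_simp
  have a0 : a 0 = 1 := rfl
  have d0 : d 0 = 0 := rfl
  have hann : ∀ k ≤ n + 1, 0 ≤ a k := by
    intro k hk
    cases k with
    | zero => rw [a0]; exact zero_le_one
    | succ k =>
      rw [← hm0]
      exact Finset.inf'_le (fun k => (rc n x μ (k + 1)).1) (Finset.mem_range.2 hk)
  have hdpos : ∀ k ≤ n, 0 < d (k + 1) := by
    intro k hk
    induction k with
    | zero =>
      have := rd 0
      rw [a0, d0] at this
      have h3 : 0 < μ * d (0 + 1) := by rw [this]; nlinarith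
      exact (mul_pos_iff_of_pos_left hμ0).1 h3
    | succ k ih =>
      have h3 := ih (by omega)
      have h4 := hann (k + 1) (by omega)
      have hk' : ((k + 1 : ℕ) : ℝ) ≤ n := by exact_mod_cast hk
      have h5 : 0 < μ * d (k + 1 + 1) := by
        rw [rd (k + 1)]
        have : 0 < (n + 1 - ((k + 1 : ℕ) : ℝ)) := by linarith
        positivity
      exact (mul_pos_iff_of_pos_left hμ0).1 h5
  have hal : a (n + 1) = 0 := by
    obtain ⟨k, hk, e⟩ := Finset.exists_mem_eq_inf' hne fun k => (rc n x μ (k + 1)).1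
    have e' : a (k + 1) = 0 := by rw [← hm0]; exact e.symm
    have hk' := Finset.mem_range.1 hk
    by_contra hn
    have hkn : k + 1 ≤ n := by
      rcases Nat.lt_succ_iff_lt_or_eq.1 hk' with h | h
      · exact h
      · exact absurd (h ▸ e') hn
    have h3 := ra (k + 1)
    have h4 := hdpos (k + 1) hkn
    have h5 := hann (k + 1 + 1) (by omega)
    rw [e'] at h3
    have : 0 ≤ (((k + 1 : ℕ) : ℝ) + 1) * a (k + 1 + 1) := by positivity
    linarith
  refine ⟨μ, fun j => a j + d (n + 1 - j) / x, ⟨by simp [hal, d0], fun j hj => ?_⟩,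
    fun j hj => ?_⟩
  · have e1 : n + 1 - j = (n - j) + 1 := by omega
    have e2 : n + 1 - (j + 1) = n - j := by omega
    have e3 : n + 1 - (n - j) = j + 1 := by omega
    have e4 : ((n - j : ℕ) : ℝ) = n - j := by push_cast [hj]; ring
    simp only [e1, e2, e3]
    have h3 := ra j
    have h4 := rd (n - j)
    rw [e4] at h4
    field_simp
    linear_combination (-x) * h3 + h4
  · have e1 : n + 1 - j = (n - j) + 1 := by omega
    have := hann j (by omega)
    have := hdpos (n - j) (by omega)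
    simp only [e1]
    positivity

/-- Normalised nonnegative solutions. -/
def Nor (n : ℕ) (x μ : ℝ) (a : ℕ → ℝ) : Prop :=
  Coef n μ x a ∧ (∀ j, a j ∈ Icc (0 : ℝ) 1) ∧ ∑ j ∈ Finset.range (n + 1), a j = 1

lemma exists_nor (n : ℕ) {x : ℝ} (hx : 0 ≤ x) : ∃ μ a, Nor n x μ a := by
  rcases hx.eq_or_lt with rfl | hx
  · refine ⟨0, fun j => if j = 0 then 1 else 0, ⟨by simp, fun j _ => by simp⟩, fun j => ?_, by simp⟩
    beta_reduce
    split_ifs <;> simp
  · obtain ⟨μ, e, h, hpos⟩ := exists_pos_coef n hx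
    set S := ∑ j ∈ Finset.range (n + 1), e j with hS
    have hnn : ∀ j ∈ Finset.range (n + 1), 0 ≤ e j := fun j hj =>
      (hpos j (Nat.lt_succ_iff.1 (Finset.mem_range.1 hj))).le
    have hS0 : 0 < S := Finset.sum_pos
      (fun j hj => hpos j (Nat.lt_succ_iff.1 (Finset.mem_range.1 hj))) ⟨0, by simp⟩
    refine ⟨μ, fun j => if j ≤ n then e j / S else 0, ⟨by simp, fun j hj => ?_⟩, fun j => ?_, ?_⟩
    · have h1 := h.2 j hj
      have e1 : (if j + 1 ≤ n then e (j + 1) / S else 0) = e (j + 1) / S := by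
        split_ifs with h2
        · rfl
        · rw [show j + 1 = n + 1 by omega, h.1, zero_div]
      simp only [hj, if_true, e1, Nat.sub_le]
      field_simp
      linear_combination h1
    · beta_reduce
      split_ifs with hj
      · refine ⟨div_nonneg (hpos j hj).le hS0.le, (div_le_one hS0).2 ?_⟩
        exact Finset.single_le_sum hnn (Finset.mem_range.2 (Nat.lt_succ_iff.2 hj))
      · simp
    · rw [Finset.sum_congr rfl (g := fun j => e j / S) fun j hj =>
        if_pos (Nat.lt_succ_iff.1 (Finset.mem_range.1 hj)), ← Finset.sum_div, div_self hS0.ne']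

lemma Nor.eval_one {n : ℕ} {x μ : ℝ} {a : ℕ → ℝ} (h : Nor n x μ a) :
    aeval (1 : ℂ) (pol n a) = 1 := by
  rw [aeval_pol]
  have := congrArg (fun r : ℝ => (r : ℂ)) h.2.2
  push_cast at this
  simpa using this

lemma Nor.ne_zero {n : ℕ} {x μ : ℝ} {a : ℕ → ℝ} (h : Nor n x μ a) : pol n a ≠ 0 := by
  intro h0
  have := h.eval_one
  rw [h0] at this
  simp at this

lemma Nor.pos {n : ℕ} {x μ : ℝ} {a : ℕ → ℝ} (h : Nor n x μ a) (s : ℝ) (hs : 0 < s) :
    0 < eval s (pol n a) := by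
  rw [eval_pol]
  obtain ⟨j, hj, hj'⟩ : ∃ j ∈ Finset.range (n + 1), a j ≠ 0 :=
    Finset.exists_ne_zero_of_sum_ne_zero (by rw [h.2.2]; exact one_ne_zero)
  exact Finset.sum_pos' (fun j _ => mul_nonneg (h.2.1 j).1 (by positivity))
    ⟨j, hj, mul_pos (lt_of_le_of_ne (h.2.1 j).1 hj'.symm) (by positivity)⟩

lemma Nor.mu_mem {n : ℕ} {x μ : ℝ} {a : ℕ → ℝ} (h : Nor n x μ a) :
    x ≤ μ ∧ μ ≤ x + (n + 1) * (n + 1) := by
  have h1 : ∑ j ∈ Finset.range (n + 1), (μ * a j - (j + 1) * a (j + 1))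
      = ∑ j ∈ Finset.range (n + 1), x * a (n - j) :=
    Finset.sum_congr rfl fun j hj => h.1.2 j (Nat.lt_succ_iff.1 (Finset.mem_range.1 hj))
  have h2 : ∑ j ∈ Finset.range (n + 1), a (n - j) = 1 := by
    rw [← h.2.2, ← Finset.sum_range_reflect]
    refine Finset.sum_congr rfl fun j hj => ?_
    have := Finset.mem_range.1 hj
    congr 1; omega
  rw [Finset.sum_sub_distrib, ← Finset.mul_sum, ← Finset.mul_sum, h.2.2, h2] at h1
  have h3 : 0 ≤ ∑ j ∈ Finset.range (n + 1), ((j : ℝ) + 1) * a (j + 1) :=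
    Finset.sum_nonneg fun j _ => mul_nonneg (by positivity) (h.2.1 _).1
  have h4 : ∑ j ∈ Finset.range (n + 1), ((j : ℝ) + 1) * a (j + 1)
      ≤ ∑ _j ∈ Finset.range (n + 1), ((n : ℝ) + 1) := by
    refine Finset.sum_le_sum fun j hj => ?_
    have : (j : ℝ) ≤ n := by exact_mod_cast Nat.lt_succ_iff.1 (Finset.mem_range.1 hj)
    have h5 := (h.2.1 (j + 1)).1
    have h6 := (h.2.1 (j + 1)).2
    nlinarith [(Nat.cast_nonneg j : (0 : ℝ) ≤ j)]
  simp only [Finset.sum_const, Finset.card_range, nsmul_eq_mul] at h4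
  push_cast at h4
  constructor <;> linarith

lemma Nor.unique {n : ℕ} {x μ μ' : ℝ} {a a' : ℕ → ℝ} (hx : 0 ≤ x) (h : Nor n x μ a)
    (h' : Nor n x μ' a') : pol n a = pol n a' := by
  have e := mu_unique hx h.1.heun h'.1.heun h.pos h'.pos
  subst e
  refine sub_eq_zero.1 ((h.1.heun.sub h'.1.heun).eq_zero_of_root (z := 1) (by simp) ?_)
  rw [map_sub, h.eval_one, h'.eval_one, sub_self]

lemma Nor.no_zero {n : ℕ} {X μ : ℝ} {a : ℕ → ℝ} (hX : 0 ≤ X) (h : Nor n X μ a) {z : ℂ}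
    (hz : ‖z‖ ≤ 1) : aeval z (pol n a) ≠ 0 := by
  set K : Set (ℝ × ℝ × (ℕ → ℝ)) := {q | q.1 ∈ Icc 0 X ∧ Nor n q.1 q.2.1 q.2.2} with hK
  have hKc : IsCompact K := by
    refine (isCompact_Icc (a := (0 : ℝ)) (b := X)).prod
      ((isCompact_Icc (a := (0 : ℝ)) (b := X + (n + 1) * (n + 1))).prod
        (isCompact_univ_pi fun _ : ℕ => isCompact_Icc (a := (0 : ℝ)) (b := 1)))
      |>.of_isClosed_subset ?_ ?_
    · simp only [hK, Nor, Coef, ofPred_and, ofPred_forall]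
      refine (isClosed_Icc.preimage continuous_fst).inter (((isClosed_eq (by fun_prop)
        continuous_const).inter (isClosed_iInter fun j => isClosed_iInter fun _ =>
          isClosed_eq (by fun_prop) (by fun_prop))).inter ((isClosed_iInter fun j =>
            isClosed_Icc.preimage (by fun_prop)).inter (isClosed_eq (by fun_prop) continuous_const)))
    · rintro ⟨x, μ, a⟩ ⟨h1, h2⟩
      have := h2.mu_mem
      exact ⟨h1, ⟨h1.1.trans this.1, this.2.trans (by linarith [h1.2])⟩, fun j _ => h2.2.1 j⟩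
  have hev : Continuous fun w : (ℝ × ℝ × (ℕ → ℝ)) × ℂ => aeval w.2 (pol n w.1.2.2) := by
    simp only [aeval_pol]
    fun_prop
  obtain ⟨μ₀, a₀, h₀⟩ := exists_nor n (le_refl 0)
  have hq₀ : ((0 : ℝ), μ₀, a₀) ∈ K := ⟨⟨le_rfl, hX⟩, h₀⟩
  obtain ⟨⟨q₁, z₁⟩, hw₁, hmin⟩ := (hKc.prod (isCompact_sphere (0 : ℂ) 1)).exists_isMinOn
    ⟨(_, 1), hq₀, by simp⟩ hev.norm.continuousOn
  set m := ‖aeval z₁ (pol n q₁.2.2)‖ with hm
  have hm0 : 0 < m := norm_pos_iff.2 fun h0 =>
    hw₁.1.2.ne_zero (hw₁.1.2.1.heun.eq_zero_of_root (by simpa using hw₁.2) h0)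
  have hgood : ∀ q ∈ K, (∀ z : ℂ, ‖z‖ ≤ 1 → aeval z (pol n q.2.2) ≠ 0) →
      ∀ z : ℂ, ‖z‖ ≤ 1 → m ≤ ‖aeval z (pol n q.2.2)‖ := by
    intro q hq hne z hz
    have hd : DiffContOnCl ℂ (fun z : ℂ => (aeval z (pol n q.2.2))⁻¹) (Metric.ball 0 1) := by
      refine DifferentiableOn.diffContOnCl fun w hw => ?_
      rw [closure_ball _ one_ne_zero] at hw
      exact (((pol n q.2.2).hasDerivAt_aeval w).differentiableAt.inv
        (hne w (by simpa using hw))).differentiableWithinAt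
    have := Complex.norm_le_of_forall_mem_frontier_norm_le Metric.isBounded_ball hd (C := m⁻¹)
      (fun w hw => by
        rw [frontier_ball _ one_ne_zero] at hw
        rw [norm_inv]
        exact inv_anti₀ hm0 (hmin (a := (q, w)) ⟨hq, hw⟩)) (z := z)
      (by rw [closure_ball _ one_ne_zero]; simpa using hz)
    rw [norm_inv] at this
    exact (inv_le_inv₀ (norm_pos_iff.2 (hne z hz)) hm0).1 this
  set G : Set ℝ := Prod.fst '' (K ∩ {q | ∀ z : ℂ, ‖z‖ ≤ 1 → m ≤ ‖aeval z (pol n q.2.2)‖}) with hG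
  set Bd : Set ℝ := (fun w : (ℝ × ℝ × (ℕ → ℝ)) × ℂ => w.1.1) ''
    ((K ×ˢ Metric.closedBall (0 : ℂ) 1) ∩ {w | aeval w.2 (pol n w.1.2.2) = 0}) with hBd
  have hGc : IsClosed G := by
    refine ((hKc.inter_right ?_).image continuous_fst).isClosed
    simp only [ofPred_forall]
    exact isClosed_iInter fun z => isClosed_iInter fun _ => isClosed_le continuous_const
      (hev.comp (continuous_id.prodMk continuous_const)).norm
  have hBc : IsClosed Bd :=
    (((hKc.prod (isCompact_closedBall _ _)).inter_right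
      (isClosed_eq hev continuous_const)).image (by fun_prop)).isClosed
  intro h0
  have hcover : Icc 0 X ⊆ G ∪ Bd := by
    intro x hx
    obtain ⟨μ', a', h'⟩ := exists_nor n hx.1
    by_cases hb : ∀ z : ℂ, ‖z‖ ≤ 1 → aeval z (pol n a') ≠ 0
    · exact Or.inl ⟨(x, μ', a'), ⟨⟨hx, h'⟩, hgood (x, μ', a') ⟨hx, h'⟩ hb⟩, rfl⟩
    · push Not at hb
      obtain ⟨w, hw, hw0⟩ := hb
      exact Or.inr ⟨((x, μ', a'), w), ⟨⟨⟨hx, h'⟩, by simpa using hw⟩, hw0⟩, rfl⟩
  have hbase : (0 : ℝ) ∈ G := by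
    have h1 : Nor n 0 0 (fun j => if j = 0 then 1 else 0) := by
      refine ⟨⟨by simp, fun j _ => by simp⟩, fun j => ?_, by simp⟩
      beta_reduce
      split_ifs <;> simp
    refine ⟨(0, 0, _), ⟨⟨⟨le_rfl, hX⟩, h1⟩, hgood (0, 0, _) ⟨⟨le_rfl, hX⟩, h1⟩ fun w _ => ?_⟩, rfl⟩
    change aeval w (pol n fun j => if j = 0 then 1 else 0) ≠ 0
    rw [aeval_pol, Finset.sum_range_succ']
    simp
  obtain ⟨x, hx, ⟨q, ⟨hq, hq'⟩, e⟩, ⟨w, ⟨⟨hw, hw'⟩, hw0⟩, e'⟩⟩ :=
    isPreconnected_closed_iff.1 isPreconnected_Icc G Bd hGc hBc hcover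
      ⟨0, ⟨le_rfl, hX⟩, hbase⟩
      ⟨X, ⟨hX, le_rfl⟩, ((X, μ, a), z), ⟨⟨⟨⟨hX, le_rfl⟩, h⟩, by simpa using hz⟩, h0⟩, rfl⟩
  have e1 : pol n q.2.2 = pol n w.1.2.2 := by
    have h1 := hq.2
    have h2 := hw.2
    simp only at e'
    rw [e] at h1
    rw [e'] at h2
    exact h1.unique hx.1 h2
  have := hq' w.2 (by simpa using hw')
  rw [e1, hw0, norm_zero] at this
  linarith

end Pool.Agent.P.MP_a6130f_an
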