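import Pool.Agent.P.MP_a6130f_an.Block

set_option autoImplicit false

/-! Polynomial solutions of `mu E - E' = y z^n E(1/z)`. -/

namespace Pool.Agent.P.MP_a6130f_an

open Set Filter Topology Polynomial
open scoped Real ComplexConjugate

/-- The polynomial with coefficients `e 0, ..., e n`. -/
noncomputable def pol (n : ℕ) (e : ℕ → ℝ) : ℝ[X] := ∑ j ∈ Finset.range (n + 1), monomial j (e j)

/-- The functional equation. -/
def Heun (n : ℕ) (μ y : ℝ) (p : ℝ[X]) : Prop :=
  ∀ z : ℂ, z ≠ 0 → μ * aeval z p - aeval z (derivative p) = y * z ^ n * aeval z⁻¹ p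

lemma aeval_pol (n : ℕ) (e : ℕ → ℝ) (z : ℂ) :
    aeval z (pol n e) = ∑ j ∈ Finset.range (n + 1), (e j : ℂ) * z ^ j := by
  simp [pol, aeval_monomial]

lemma eval_pol (n : ℕ) (e : ℕ → ℝ) (s : ℝ) :
    eval s (pol n e) = ∑ j ∈ Finset.range (n + 1), e j * s ^ j := by
  simp [pol, eval_finsetSum]

lemma coeff_pol (n : ℕ) (e : ℕ → ℝ) {j : ℕ} (hj : j ≤ n) : (pol n e).coeff j = e j := by
  simp [pol, coeff_monomial, hj]

lemma Coef.heun {n : ℕ} {μ y : ℝ} {e : ℕ → ℝ} (h : Coef n μ y e) : Heun n μ y (pol n e) := by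
  intro z hz
  have h1 : aeval z (derivative (pol n e))
      = ∑ j ∈ Finset.range (n + 1), ((j + 1 : ℂ) * e (j + 1)) * z ^ j := by
    rw [Finset.sum_range_succ, h.1]
    simp only [pol, derivative_monomial, map_sum, aeval_monomial]
    rw [Finset.sum_range_succ']
    simp [mul_comm]
  have h2 : z ^ n * aeval z⁻¹ (pol n e)
      = ∑ j ∈ Finset.range (n + 1), (e (n - j) : ℂ) * z ^ j := by
    rw [aeval_pol, Finset.mul_sum, ← Finset.sum_range_reflect]
    refine Finset.sum_congr rfl fun j hj => ?_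
    have hj' : j ≤ n := Nat.lt_succ_iff.1 (Finset.mem_range.1 hj)
    have : z ^ n = z ^ j * z ^ (n - j) := by rw [← pow_add]; congr 1; omega
    simp only [Nat.add_sub_cancel]
    rw [this, inv_pow]
    field_simp
  rw [mul_assoc, h2, h1, aeval_pol, Finset.mul_sum, Finset.mul_sum, ← Finset.sum_sub_distrib]
  refine Finset.sum_congr rfl fun j hj => ?_
  have hj' : j ≤ n := Nat.lt_succ_iff.1 (Finset.mem_range.1 hj)
  have := congrArg (fun r : ℝ => (r : ℂ)) (h.2 j hj')
  push_cast at this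
  linear_combination z ^ j * this

lemma Heun.real {n : ℕ} {μ y : ℝ} {p : ℝ[X]} (h : Heun n μ y p) {s : ℝ} (hs : s ≠ 0) :
    μ * eval s p - eval s (derivative p) = y * s ^ n * eval s⁻¹ p := by
  have := h s (by exact_mod_cast hs)
  have e : ∀ (q : ℝ[X]) (t : ℝ), aeval (t : ℂ) q = ((eval t q : ℝ) : ℂ) := fun q t =>
    (Polynomial.ofReal_eval (K := ℂ) q t).symm
  rw [← Complex.ofReal_inv, e, e, e] at this
  exact_mod_cast this

lemma Heun.neg {n : ℕ} {μ y : ℝ} {p : ℝ[X]} (h : Heun n μ y p) : Heun n μ y (-p) := by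
  intro z hz
  have := h z hz
  simp only [map_neg]
  linear_combination -this

lemma Heun.sub {n : ℕ} {μ y : ℝ} {p q : ℝ[X]} (h : Heun n μ y p) (h' : Heun n μ y q) :
    Heun n μ y (p - q) := by
  intro z hz
  have := h z hz
  have := h' z hz
  simp only [map_sub]
  linear_combination h z hz - h' z hz

lemma Heun.circle {n : ℕ} {μ y : ℝ} {p : ℝ[X]} (h : Heun n μ y p) {z : ℂ} (hz : ‖z‖ = 1) :
    aeval z (derivative p) = μ * aeval z p - y * z ^ n * conj (aeval z p) := by
  have := h z (by rintro rfl; simp at hz)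
  rw [Complex.inv_eq_conj hz, Polynomial.aeval_conj] at this
  linear_combination -this

lemma hasDerivAt_aeval_ez (p : ℝ[X]) (z : ℂ) (t : ℝ) :
    HasDerivAt (fun t => aeval (z * ez 1 t) p)
      (Complex.I * (z * ez 1 t) * aeval (z * ez 1 t) (derivative p)) t := by
  have h1 := HasDerivAt.comp (h := fun t : ℝ => z * ez 1 t) t
    (p.hasDerivAt_aeval (z * ez 1 t)) ((hasDerivAt_ez 1 t).const_mul z)
  exact h1.congr_deriv (by push_cast; ring)

lemma re_ez_one (t : ℝ) : (ez 1 t).re = Real.cos t := by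
  unfold ez
  rw [show ((1 : ℤ) : ℂ) * t * Complex.I = t * Complex.I by simp, Complex.exp_ofReal_mul_I_re]

lemma Heun.eq_zero_of_root {n : ℕ} {μ y : ℝ} {p : ℝ[X]} (h : Heun n μ y p) {z : ℂ}
    (hz : ‖z‖ = 1) (h0 : aeval z p = 0) : p = 0 := by
  have hn : ∀ t, ‖z * ez 1 t‖ = 1 := fun t => by simp [hz]
  have key := eq_zero_of_abs_deriv_le_mul_abs_self_of_eq_zero_right
    (f := fun t => aeval (z * ez 1 t) p)
    (f' := fun t => Complex.I * (z * ez 1 t) * aeval (z * ez 1 t) (derivative p))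
    (K := |μ| + |y|) (a := 0) (b := 1)
    (fun t _ => (hasDerivAt_aeval_ez p z t).continuousAt.continuousWithinAt)
    (fun t _ => (hasDerivAt_aeval_ez p z t).hasDerivWithinAt) (by simpa using h0)
    (fun t _ => by
      rw [norm_mul, norm_mul, hn, Complex.norm_I, one_mul, one_mul, h.circle (hn t)]
      refine (norm_sub_le _ _).trans (le_of_eq ?_)
      simp only [norm_mul, norm_pow, hz, norm_ez, Complex.norm_real, Real.norm_eq_abs,
        Complex.norm_conj]
      ring)
  have hz0 : z ≠ 0 := by rintro rfl; simp at hz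
  have hinf : Set.Infinite ((fun t : ℝ => z * ez 1 t) '' Icc 0 1) := by
    refine (Set.Icc_infinite (by norm_num)).image fun s hs t ht e => ?_
    have e1 := congrArg Complex.re (mul_left_cancel₀ hz0 e)
    rw [re_ez_one, re_ez_one] at e1
    have := Real.pi_gt_three
    exact Real.injOn_cos ⟨hs.1, by linarith [hs.2]⟩ ⟨ht.1, by linarith [ht.2]⟩ e1
  have hq : p.map (algebraMap ℝ ℂ) = 0 := by
    refine Polynomial.eq_zero_of_infinite_isRoot _ (hinf.mono ?_)
    rintro _ ⟨t, ht, rfl⟩
    simpa [eval_map_algebraMap] using key t ht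
  exact (Polynomial.map_eq_zero_iff (algebraMap ℝ ℂ).injective).1 hq

lemma integral_single {w : ℂ} (hw : ‖w‖ ≠ 1) :
    ∫ t in (0 : ℝ)..2 * π, (-1 * ez 1 t) * (1 / (-1 * ez 1 t - w))
      = if ‖w‖ < 1 then (2 * π : ℂ) else 0 := by
  have e : (∮ z in C(0, 1), (z - -w)⁻¹)
      = Complex.I * ∫ t in (0 : ℝ)..2 * π, (-1 * ez 1 t) * (1 / (-1 * ez 1 t - w)) := by
    rw [circleIntegral, ← intervalIntegral.integral_const_mul]
    congr 1; ext t
    have : circleMap 0 1 t = ez 1 t := by simp [circleMap, ez]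
    rw [deriv_circleMap, this, smul_eq_mul,
      show -1 * ez 1 t - w = -(ez 1 t - -w) by ring, one_div, inv_neg]
    ring
  split_ifs with h
  · rw [circleIntegral.integral_sub_inv_of_mem_ball (by simpa using h)] at e
    apply mul_left_cancel₀ Complex.I_ne_zero
    rw [← e]; ring
  · have h' : 1 < ‖w‖ := lt_of_le_of_ne (not_lt.1 h) hw.symm
    have hne : ∀ z ∈ Metric.closedBall (0 : ℂ) 1, z - -w ≠ 0 := by
      intro z hz h0
      have : z = -w := sub_eq_zero.1 h0
      rw [this] at hz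
      simp at hz
      linarith
    rw [Complex.circleIntegral_eq_zero_of_differentiable_on_off_countable (s := ∅)
      (f := fun z => (z - -w)⁻¹) zero_le_one
      countable_empty (ContinuousOn.inv₀ (by fun_prop) hne) (fun z hz =>
        DifferentiableAt.inv (by fun_prop) (hne z (Metric.ball_subset_closedBall hz.1)))] at e
    exact (mul_eq_zero.1 e.symm).resolve_left Complex.I_ne_zero

lemma integral_multiset (s : Multiset ℂ) (hs : ∀ w ∈ s, ‖w‖ ≠ 1) :
    Continuous (fun t : ℝ => (-1 * ez 1 t) * (s.map fun w => 1 / (-1 * ez 1 t - w)).sum) ∧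
    ∫ t in (0 : ℝ)..2 * π, (-1 * ez 1 t) * (s.map fun w => 1 / (-1 * ez 1 t - w)).sum
      = 2 * π * ((s.filter fun w => ‖w‖ < 1).card : ℂ) := by
  induction s using Multiset.induction_on with
  | empty => simp [continuous_const]
  | cons a s ih =>
    obtain ⟨ih1, ih2⟩ := ih fun w hw => hs w (Multiset.mem_cons_of_mem hw)
    have ha := hs a (Multiset.mem_cons_self a s)
    have hc : Continuous fun t : ℝ => (-1 * ez 1 t) * (1 / (-1 * ez 1 t - a)) := by
      refine Continuous.mul (by fun_prop) (Continuous.div (by fun_prop) (by fun_prop) fun t h0 => ?_)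
      apply ha
      rw [← sub_eq_zero.1 h0]; simp
    simp only [Multiset.map_cons, Multiset.sum_cons, mul_add]
    refine ⟨hc.add ih1, ?_⟩
    rw [intervalIntegral.integral_add (hc.intervalIntegrable _ _) (ih1.intervalIntegrable _ _),
      ih2, integral_single ha, Multiset.filter_cons]
    split_ifs <;> simp
    ring

/-- Number of zeros in the open unit disc. -/
noncomputable def nz (p : ℝ[X]) : ℕ :=
  ((p.map (algebraMap ℝ ℂ)).roots.filter fun w => ‖w‖ < 1).card

lemma integral_logderiv {p : ℝ[X]} (hp : ∀ z : ℂ, ‖z‖ = 1 → aeval z p ≠ 0) :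
    ∫ t in (0 : ℝ)..2 * π,
      (-1 * ez 1 t) * (aeval (-1 * ez 1 t) (derivative p) / aeval (-1 * ez 1 t) p)
      = 2 * π * (nz p : ℂ) := by
  have h := (integral_multiset (p.map (algebraMap ℝ ℂ)).roots fun w hw h1 => hp w h1 (by
    have := (mem_roots'.1 hw).2
    simpa [eval_map_algebraMap] using this)).2
  rw [nz, ← h]
  congr 1; ext t
  have := (IsAlgClosed.splits (p.map (algebraMap ℝ ℂ))).eval_derivative_div_eval_of_ne_zero
    (x := -1 * ez 1 t) (by rw [eval_map_algebraMap]; exact hp _ (by simp))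
  rw [← this, derivative_map, eval_map_algebraMap, eval_map_algebraMap]

lemma nz_eq_zero_iff {p : ℝ[X]} (hp : p ≠ 0) :
    nz p = 0 ↔ ∀ z : ℂ, ‖z‖ < 1 → aeval z p ≠ 0 := by
  have hq : p.map (algebraMap ℝ ℂ) ≠ 0 :=
    (Polynomial.map_ne_zero_iff (algebraMap ℝ ℂ).injective).2 hp
  rw [nz, Multiset.card_eq_zero, Multiset.filter_eq_nil]
  constructor
  · intro h z hz h0
    exact h z ((mem_roots hq).2 (by simpa [eval_map_algebraMap] using h0)) hz
  · intro h z hz h1
    exact h z h1 (by simpa [eval_map_algebraMap] using (mem_roots hq).1 hz)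

/-- A polynomial solution gives a solution of the differential equation. -/
lemma sol_of_heun {c B A σ : ℝ} {n : ℕ} (hB : c * B = ((n + 1 : ℕ) : ℤ)) (hσ : σ = 1 ∨ σ = -1)
    {p : ℝ[X]} (hp : p ≠ 0) (h : Heun n (c * A / 2) (σ * (c / 2)) p) :
    ∃ ψ, Sol c B A ψ ∧ Real.cos (ψ 0) = 0 ∧ Dsp (((n + 1 : ℕ) : ℤ) - 2 * (nz p : ℤ)) ψ = 0 := by
  have hnr : ∀ z : ℂ, ‖z‖ = 1 → aeval z p ≠ 0 := fun z hz h0 => hp (h.eq_zero_of_root hz h0)
  have hn : ∀ t, ‖(-1 : ℂ) * ez 1 t‖ = 1 := fun t => by simp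
  set F : ℝ → ℂ := fun t => aeval (-1 * ez 1 t) p with hF
  set L : ℝ → ℂ := fun t =>
    (-1 * ez 1 t) * (aeval (-1 * ez 1 t) (derivative p) / aeval (-1 * ez 1 t) p) with hL
  have F0 : ∀ t, F t ≠ 0 := fun t => hnr _ (hn t)
  have cL : Continuous L := by
    refine Continuous.mul (by fun_prop) (Continuous.div ?_ ?_ F0)
    · exact (derivative p).continuous_aeval.comp (by fun_prop)
    · exact p.continuous_aeval.comp (by fun_prop)
  have hFd : ∀ t, HasDerivAt F (Complex.I * L t * F t) t := fun t =>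
    (hasDerivAt_aeval_ez p (-1) t).congr_deriv (by
      have := F0 t
      simp only [hL, hF] at this ⊢
      generalize aeval (-1 * ez 1 t) p = a at this ⊢
      field_simp)
  set Λ : ℝ → ℂ := fun t => ∫ s in (0 : ℝ)..t, L s with hΛ
  have hΛd : ∀ t, HasDerivAt Λ (L t) t := fun t => (cL.integral_hasStrictDerivAt 0 t).hasDerivAt
  have hFe : ∀ t, F t = F 0 * Complex.exp (Complex.I * Λ t) := fun t => by
    have hd : ∀ t, HasDerivAt (fun t => F t * Complex.exp (-Complex.I * Λ t)) 0 t := fun t =>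
      ((hFd t).mul ((hΛd t).const_mul (-Complex.I)).cexp).congr_deriv (by ring)
    have := is_const_of_deriv_eq_zero (fun t => (hd t).differentiableAt) (fun t => (hd t).deriv)
      t 0
    have e0 : Λ 0 = 0 := by simp [hΛ]
    rw [e0, mul_zero, Complex.exp_zero, mul_one] at this
    rw [← this, mul_assoc, ← Complex.exp_add]; simp
  have hF0 : conj (F 0) = F 0 := by
    simp only [hF]
    rw [← Polynomial.aeval_conj]; simp
  set s : ℝ := σ * (-1) ^ n with hs
  have hs' : s = 1 ∨ s = -1 := by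
    rcases hσ with h1 | h1 <;> rcases neg_one_pow_eq_or ℝ n with h2 | h2 <;> simp [hs, h1, h2]
  have hes : Complex.exp ((s * (π / 2) : ℝ) * Complex.I) = s * Complex.I := by
    rw [Complex.exp_mul_I, ← Complex.ofReal_cos, ← Complex.ofReal_sin]
    rcases hs' with h1 | h1 <;> simp [h1]
  set ψ : ℝ → ℝ := fun t => s * (π / 2) + (n + 1) * t - 2 * (Λ t).re with hψ
  have hexp : ∀ t, Complex.exp (ψ t * Complex.I)
      = s * Complex.I * ez 1 t ^ (n + 1) * (conj (F t) / F t) := fun t => by
    have e1 : conj (F t) / F t = Complex.exp (-(2 * (Λ t).re) * Complex.I) := by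
      rw [div_eq_iff (F0 t), hFe t, map_mul, hF0, ← Complex.exp_conj, mul_left_comm,
        ← Complex.exp_add]
      congr 2
      apply Complex.ext <;> simp
      ring
    rw [e1, ← hes, ez, ← Complex.exp_nat_mul, ← Complex.exp_add, ← Complex.exp_add]
    congr 1
    simp only [hψ]
    push_cast
    ring
  refine ⟨ψ, fun t => ?_, ?_, ?_⟩
  · have hre : HasDerivAt (fun t => (Λ t).re) (L t).re t :=
      Complex.reCLM.hasFDerivAt.comp_hasDerivAt t (hΛd t)
    have h1 := ((((hasDerivAt_id t).const_mul ((n : ℝ) + 1)).const_add (s * (π / 2))).sub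
      (hre.const_mul 2))
    refine h1.congr_deriv ?_
    have e1 : L t = -(c * A / 2 : ℝ) * ez 1 t
        - (c / 2 : ℝ) * (Complex.I * Complex.exp (ψ t * Complex.I)) := by
      rw [hexp]
      simp only [hL]
      rw [h.circle (hn t)]
      have := F0 t
      simp only [hF] at this ⊢
      generalize aeval (-1 * ez 1 t) p = a at this ⊢
      rw [mul_pow, hs]
      push_cast
      field_simp
      rw [Complex.I_sq]
      ring
    have e2 : (L t).re = -(c * A / 2) * Real.cos t + c / 2 * Real.sin (ψ t) := by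
      rw [e1, ← re_ez_one, ← Complex.exp_ofReal_mul_I_im (ψ t)]
      simp
    rw [e2]
    push_cast at hB
    linear_combination -hB
  · simp only [hψ, hΛ]
    rcases hs' with h1 | h1 <;> simp [h1]
  · have := integral_logderiv hnr
    have e : (Λ (2 * π)).re = 2 * π * nz p := by
      simp only [hΛ, hL]
      rw [this]
      simp
    unfold Dsp
    simp only [hψ, e]
    simp [hΛ]
    ring

end Pool.Agent.P.MP_a6130f_an
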