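import Pool.Agent.P.MP_a6130f_an.Poly

set_option autoImplicit false

/-! Real-variable analysis of positive polynomial solutions. -/

namespace Pool.Agent.P.MP_a6130f_an

open Set Filter Topology Polynomial

/-- The quotient `s^n p(1/s) / p(s)`. -/
noncomputable def Rq (n : ℕ) (p : ℝ[X]) (s : ℝ) : ℝ := s ^ n * eval s⁻¹ p / eval s p

lemma Heun.hasDerivAt_Rq {n : ℕ} {μ y : ℝ} {p : ℝ[X]} (h : Heun n μ y p) {s : ℝ} (hs : 0 < s)
    (hp : eval s p ≠ 0) :
    HasDerivAt (Rq n p)
      (Rq n p s * (n / s - μ * (1 + 1 / s ^ 2)) + y / s ^ 2 + y * Rq n p s ^ 2) s := by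
  have h1 : HasDerivAt (fun s : ℝ => s ^ n) (n / s * s ^ n) s := by
    refine (hasDerivAt_pow n s).congr_deriv ?_
    cases n with
    | zero => simp
    | succ n => simp only [Nat.add_sub_cancel, pow_succ]; field_simp
  have h2 := HasDerivAt.comp s (p.hasDerivAt s⁻¹) (hasDerivAt_inv hs.ne')
  have h3 := (h1.mul h2).div (p.hasDerivAt s) hp
  refine h3.congr_deriv ?_
  have e1 := h.real hs.ne'
  have e2 := h.real (inv_ne_zero hs.ne')
  rw [inv_inv] at e2
  have e1' : eval s (derivative p) = μ * eval s p - y * s ^ n * eval s⁻¹ p := by linarith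
  have e2' : eval s⁻¹ (derivative p) = μ * eval s⁻¹ p - y * s⁻¹ ^ n * eval s p := by linarith
  simp only [Rq, Function.comp_apply, Pi.mul_apply]
  rw [e1', e2', inv_pow]
  generalize eval s⁻¹ p = b
  generalize eval s p = a at hp ⊢
  have : s ^ n ≠ 0 := pow_ne_zero _ hs.ne'
  generalize s ^ n = S at this ⊢
  field_simp
  ring

lemma Heun.tendsto_Rq {n : ℕ} {μ y : ℝ} {p : ℝ[X]} (h : Heun n μ y p)
    (hp : ∀ s, 0 < s → 0 < eval s p) : Tendsto (fun s => y * Rq n p s) atTop (𝓝 μ) := by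
  have hp0 : p ≠ 0 := by
    rintro rfl
    simpa using hp 1 one_pos
  have h1 := (tendsto_const_nhds (x := μ)).sub
    (Polynomial.div_tendsto_atTop_zero_of_degree_lt _ _ (degree_derivative_lt hp0))
  rw [sub_zero] at h1
  refine h1.congr' ?_
  filter_upwards [eventually_gt_atTop 0] with s hs
  have e1 := h.real hs.ne'
  have := (hp s hs).ne'
  unfold Rq
  generalize eval s⁻¹ p = b at e1 ⊢
  field_simp
  linarith

lemma Rq_pos {n : ℕ} {p : ℝ[X]} (hp : ∀ s, 0 < s → 0 < eval s p) {s : ℝ} (hs : 0 < s) :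
    0 < Rq n p s := by
  have := hp s hs
  have := hp s⁻¹ (inv_pos.2 hs)
  unfold Rq
  positivity

lemma Rq_one {n : ℕ} {p : ℝ[X]} (hp : ∀ s, 0 < s → 0 < eval s p) : Rq n p 1 = 1 := by
  have := (hp 1 one_pos).ne'
  simp [Rq, this]

lemma mu_le_mu {n : ℕ} {μ₁ μ₂ y : ℝ} (hy : 0 ≤ y) {p q : ℝ[X]} (h₁ : Heun n μ₁ y p)
    (h₂ : Heun n μ₂ y q) (hp : ∀ s, 0 < s → 0 < eval s p) (hq : ∀ s, 0 < s → 0 < eval s q) :
    μ₂ ≤ μ₁ := by
  by_contra hlt
  push Not at hlt
  have key : ∀ b, 1 ≤ b → Rq n q b ≤ Rq n p b := by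
    intro b hb
    have d1 := fun s (hs : 1 ≤ s) => h₁.hasDerivAt_Rq (s := s) (by linarith) (hp s (by linarith)).ne'
    have d2 := fun s (hs : 1 ≤ s) => h₂.hasDerivAt_Rq (s := s) (by linarith) (hq s (by linarith)).ne'
    refine image_le_of_deriv_right_lt_deriv_boundary' (a := 1) (b := b)
      (fun s hs => (d2 s hs.1).continuousAt.continuousWithinAt)
      (fun s hs => (d2 s hs.1).hasDerivWithinAt) (by rw [Rq_one hp, Rq_one hq])
      (fun s hs => (d1 s hs.1).continuousAt.continuousWithinAt)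
      (fun s hs => (d1 s hs.1).hasDerivWithinAt) (fun s hs e => ?_) ⟨hb, le_rfl⟩
    have hs0 : 0 < s := by linarith [hs.1]
    have h1 := Rq_pos (n := n) hp hs0
    rw [e]
    have : 0 < Rq n p s * ((μ₂ - μ₁) * (1 + 1 / s ^ 2)) := by
      have := sub_pos.2 hlt
      positivity
    nlinarith
  have := le_of_tendsto_of_tendsto (h₂.tendsto_Rq hq) (h₁.tendsto_Rq hp) (by
    filter_upwards [eventually_ge_atTop 1] with s hs
    exact mul_le_mul_of_nonneg_left (key s hs) hy)
  linarith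

lemma mu_unique {n : ℕ} {μ₁ μ₂ y : ℝ} (hy : 0 ≤ y) {p q : ℝ[X]} (h₁ : Heun n μ₁ y p)
    (h₂ : Heun n μ₂ y q) (hp : ∀ s, 0 < s → 0 < eval s p) (hq : ∀ s, 0 < s → 0 < eval s q) :
    μ₁ = μ₂ :=
  le_antisymm (mu_le_mu hy h₂ h₁ hq hp) (mu_le_mu hy h₁ h₂ hp hq)

lemma two_mu_le {n : ℕ} {μ y : ℝ} (hμ : 0 < μ) (hy : 0 ≤ y) {p : ℝ[X]} (h : Heun n μ y p)
    (hp : ∀ s, 0 < s → 0 < eval s p) : 2 * μ ≤ n + 1 + 2 * y := by
  by_contra hlt
  push Not at hlt
  have key : ∀ b, 1 ≤ b → b * Rq n p b ≤ 1 := by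
    intro b hb
    have d1 := fun s (hs : 1 ≤ s) => (hasDerivAt_id s).mul
      (h.hasDerivAt_Rq (s := s) (by linarith) (hp s (by linarith)).ne')
    refine image_le_of_deriv_right_lt_deriv_boundary (a := 1) (b := b) (B := fun _ => 1)
      (B' := fun _ => 0)
      (fun s hs => (d1 s hs.1).continuousAt.continuousWithinAt)
      (fun s hs => (d1 s hs.1).hasDerivWithinAt) (by simp [Rq_one hp])
      (fun s => hasDerivAt_const s 1) (fun s hs e => ?_) ⟨hb, le_rfl⟩
    have hs0 : 0 < s := by linarith [hs.1]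
    have e' : Rq n p s = 1 / s := by
      rw [eq_div_iff hs0.ne', mul_comm]; exact e
    rw [e']
    have e2 : 1 * (1 / s) + id s * (1 / s * (n / s - μ * (1 + 1 / s ^ 2)) + y / s ^ 2
        + y * (1 / s) ^ 2) = ((n + 1 + 2 * y) * s - μ * (s ^ 2 + 1)) / s ^ 2 := by
      simp only [id]; field_simp; ring
    rw [e2]
    refine div_neg_of_neg_of_pos ?_ (by positivity)
    nlinarith [mul_nonneg hμ.le (sq_nonneg (s - 1)), mul_pos (sub_pos.2 hlt) hs0]
  have := le_of_tendsto_of_tendsto (h.tendsto_Rq hp) (tendsto_id.const_div_atTop y) (by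
    filter_upwards [eventually_ge_atTop 1] with s hs
    have hs0 : 0 < s := by linarith
    have := mul_le_mul_of_nonneg_left (key s hs) hy
    simp only [id]
    rw [le_div_iff₀ hs0]
    linarith)
  linarith

lemma pos_of_heun {n : ℕ} {μ y : ℝ} (hμ : 0 < μ) (hy : y ≠ 0) {p : ℝ[X]} (h : Heun n μ y p)
    (hp : ∀ s, 0 < s → s ≤ 1 → 0 < eval s p) : 0 < y ∧ ∀ s, 0 < s → 0 < eval s p := by
  have hd : ∀ s, 0 < s → HasDerivAt (fun s => eval s p / Real.exp (μ * s))
      (-y * (s ^ n * eval s⁻¹ p / Real.exp (μ * s))) s := by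
    intro s hs
    have := (p.hasDerivAt s).div ((hasDerivAt_id s).const_mul μ).exp (Real.exp_ne_zero _)
    refine this.congr_deriv ?_
    have e1 := h.real hs.ne'
    have e1' : eval s (derivative p) = μ * eval s p - y * s ^ n * eval s⁻¹ p := by linarith
    rw [e1']
    simp only [id]
    field_simp
    ring
  have hpos : ∀ s, 1 ≤ s → 0 < s ^ n * eval s⁻¹ p / Real.exp (μ * s) := by
    intro s hs
    have hs0 : 0 < s := by linarith
    have := hp s⁻¹ (inv_pos.2 hs0) (inv_le_one_of_one_le₀ hs)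
    positivity
  have hlim : Tendsto (fun s => eval s p / Real.exp (μ * s)) atTop (𝓝 0) := by
    have := (p.comp (C μ⁻¹ * X)).tendsto_div_exp_atTop.comp
      (tendsto_id.const_mul_atTop hμ)
    refine this.congr fun s => ?_
    simp [eval_comp, hμ.ne']
  have hcont : ContinuousOn (fun s => eval s p / Real.exp (μ * s)) (Ici 1) := fun s hs =>
    (hd s (lt_of_lt_of_le one_pos hs)).continuousAt.continuousWithinAt
  have hy0 : 0 < y := by
    by_contra hn
    have hy' : y < 0 := lt_of_le_of_ne (not_lt.1 hn) hy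
    have hm : StrictMonoOn (fun s => eval s p / Real.exp (μ * s)) (Ici 1) :=
      strictMonoOn_of_deriv_pos (convex_Ici 1) hcont fun s hs => by
        have hs1 : 1 ≤ s := interior_subset hs
        rw [(hd s (by linarith)).deriv]
        exact mul_pos (by linarith) (hpos s hs1)
    have h1 : eval 1 p / Real.exp (μ * 1) ≤ 0 := ge_of_tendsto hlim (by
      filter_upwards [eventually_ge_atTop 1] with s hs
      exact hm.monotoneOn (mem_Ici.2 le_rfl) hs hs)
    have := hp 1 one_pos le_rfl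
    have : 0 < eval 1 p / Real.exp (μ * 1) := by positivity
    linarith
  refine ⟨hy0, fun s hs => ?_⟩
  rcases le_total s 1 with h1 | h1
  · exact hp s hs h1
  · have hm : StrictAntiOn (fun s => eval s p / Real.exp (μ * s)) (Ici 1) :=
      strictAntiOn_of_deriv_neg (convex_Ici 1) hcont fun s hs => by
        have hs1 : 1 ≤ s := interior_subset hs
        rw [(hd s (by linarith)).deriv]
        exact mul_neg_of_neg_of_pos (by linarith) (hpos s hs1)
    have h2 : 0 ≤ eval (s + 1) p / Real.exp (μ * (s + 1)) := le_of_tendsto hlim (by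
      filter_upwards [eventually_ge_atTop (s + 1)] with t ht
      exact hm.antitoneOn (mem_Ici.2 (by linarith)) (mem_Ici.2 (by linarith)) ht)
    have h3 := hm (mem_Ici.2 h1) (mem_Ici.2 (by linarith : 1 ≤ s + 1)) (by linarith)
    have h4 : 0 < eval s p / Real.exp (μ * s) := lt_of_le_of_lt h2 h3
    exact (div_pos_iff_of_pos_right (Real.exp_pos _)).1 h4

/-- A solution without zeros in the closed disc can be normalised to be positive. -/
lemma normalise {n : ℕ} {μ y : ℝ} (hμ : 0 < μ) (hy : y ≠ 0) {p : ℝ[X]} (h : Heun n μ y p)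
    (hp : ∀ z : ℂ, ‖z‖ ≤ 1 → aeval z p ≠ 0) :
    0 < y ∧ ∃ q, Heun n μ y q ∧ ∀ s, 0 < s → 0 < eval s q := by
  have hne : ∀ s ∈ Icc (0 : ℝ) 1, eval s p ≠ 0 := by
    intro s hs h0
    refine hp s (by rw [Complex.norm_real, Real.norm_eq_abs, abs_of_nonneg hs.1]; exact hs.2) ?_
    have := Polynomial.ofReal_eval (K := ℂ) p s
    rw [h0] at this
    simpa using this.symm
  have hc : ContinuousOn (fun s => eval s p) (Icc (0 : ℝ) 1) := p.continuous.continuousOn
  rcases lt_or_gt_of_ne (hne 1 ⟨zero_le_one, le_rfl⟩) with h1 | h1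
  · have := pos_of_heun hμ hy h.neg fun s hs hs1 => by
      rw [eval_neg, neg_pos]
      by_contra hn
      push Not at hn
      obtain ⟨t, ht, e⟩ := isPreconnected_Icc.intermediate_value ⟨zero_le_one, le_rfl⟩ ⟨hs.le, hs1⟩
        hc ⟨h1.le, hn⟩
      exact hne t ht e
    exact ⟨this.1, _, h.neg, this.2⟩
  · have := pos_of_heun hμ hy h fun s hs hs1 => by
      by_contra hn
      push Not at hn
      obtain ⟨t, ht, e⟩ := isPreconnected_Icc.intermediate_value ⟨hs.le, hs1⟩ ⟨zero_le_one, le_rfl⟩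
        hc ⟨hn, h1.le⟩
      exact hne t ht e
    exact ⟨this.1, _, h, this.2⟩

end Pool.Agent.P.MP_a6130f_an
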